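import Mathlib
import Pool.Agent.Helper94.TS.lsieve
import Pool.Agent.Helper24.Odious.Asym

set_option autoImplicit false

namespace Pool.Agent.Odious24

open Finset

/-- reduced fractions whose denominator is prime to 6 and lies in the range from D to 2D -/
def Fr (D : ℕ) : Finset (Σ _ : ℕ, ℕ) :=
  ((Ico D (2 * D)).filter (fun r => Nat.Coprime r 6)).sigma
    (fun r => (range r).filter (fun a => 0 < a ∧ Nat.Coprime a r))

theorem Fr_sep (D i : ℕ) (p q : Σ _ : ℕ, ℕ) (hp : p ∈ Fr D) (hq : q ∈ Fr D) (hpq : p ≠ q)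
    (β : ℝ) (k : ℤ) : 1 / (4 * (D : ℝ) ^ 2) ≤
      |2 ^ i * ((p.2 : ℝ) / p.1 + β) - 2 ^ i * ((q.2 : ℝ) / q.1 + β) - k| := by
  obtain ⟨r, a⟩ := p
  obtain ⟨s, b⟩ := q
  unfold Fr at hp hq
  rw [mem_sigma] at hp hq
  simp only [mem_filter, mem_Ico, mem_range] at hp hq
  obtain ⟨⟨⟨hr1, hr2⟩, hr3⟩, ha1, ha2, ha3⟩ := hp
  obtain ⟨⟨⟨hs1, hs2⟩, hs3⟩, hb1, hb2, hb3⟩ := hq
  have hr0 : 0 < r := by omega
  have hs0 : 0 < s := by omega
  have hr' : (0 : ℝ) < r := by exact_mod_cast hr0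
  have hs' : (0 : ℝ) < s := by exact_mod_cast hs0
  simp only
  set N : ℤ := 2 ^ i * ((a : ℤ) * s - (b : ℤ) * r) - k * (r * s) with hN
  have h1 : 2 ^ i * ((a : ℝ) / r + β) - 2 ^ i * ((b : ℝ) / s + β) - k = (N : ℝ) / (r * s) := by
    rw [hN]; push_cast; field_simp; ring
  have cr2 : IsCoprime (r : ℤ) ((2 : ℤ) ^ i) := by
    have h4 : Nat.Coprime r 2 := Nat.Coprime.coprime_dvd_right (by norm_num) hr3
    have h5 := Nat.isCoprime_iff_coprime.mpr h4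
    exact IsCoprime.pow_right (by exact_mod_cast h5)
  have cs2 : IsCoprime (s : ℤ) ((2 : ℤ) ^ i) := by
    have h4 : Nat.Coprime s 2 := Nat.Coprime.coprime_dvd_right (by norm_num) hs3
    have h5 := Nat.isCoprime_iff_coprime.mpr h4
    exact IsCoprime.pow_right (by exact_mod_cast h5)
  have cra : IsCoprime (r : ℤ) (a : ℤ) := (Nat.isCoprime_iff_coprime.mpr ha3).symm
  have csb : IsCoprime (s : ℤ) (b : ℤ) := (Nat.isCoprime_iff_coprime.mpr hb3).symm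
  have hN0 : N ≠ 0 := by
    intro h0
    rw [hN] at h0
    have d1 : (r : ℤ) ∣ s := by
      have e1 : (r : ℤ) ∣ 2 ^ i * (a * s) := ⟨2 ^ i * b + k * s, by linear_combination h0⟩
      exact cra.dvd_of_dvd_mul_left (cr2.dvd_of_dvd_mul_left e1)
    have d2 : (s : ℤ) ∣ r := by
      have e1 : (s : ℤ) ∣ 2 ^ i * (b * r) := ⟨2 ^ i * a - k * r, by linear_combination -h0⟩
      exact csb.dvd_of_dvd_mul_left (cs2.dvd_of_dvd_mul_left e1)
    have hrs : r = s := Nat.dvd_antisymm (by exact_mod_cast d1) (by exact_mod_cast d2)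
    subst hrs
    have d3 : (r : ℤ) ∣ (a : ℤ) - b := by
      have e1 : (r : ℤ) ∣ 2 ^ i * ((a : ℤ) - b) := by
        refine ⟨k, ?_⟩
        have hr0' : (r : ℤ) ≠ 0 := by exact_mod_cast hr0.ne'
        apply mul_right_cancel₀ hr0'
        linear_combination h0
      exact cr2.dvd_of_dvd_mul_left e1
    have hab : (a : ℤ) - b = 0 := by
      apply Int.eq_zero_of_abs_lt_dvd d3
      rw [abs_lt]
      constructor <;> omega
    have : a = b := by omega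
    subst this
    exact hpq rfl
  have h2 : (1 : ℝ) ≤ |(N : ℝ)| := by
    rw [← Int.cast_abs]
    exact_mod_cast Int.one_le_abs hN0
  rw [h1, abs_div, abs_of_pos (mul_pos hr' hs')]
  have h3 : (r : ℝ) * s ≤ 4 * (D : ℝ) ^ 2 := by
    have e1 : (r : ℝ) ≤ 2 * D := by exact_mod_cast hr2.le
    have e2 : (s : ℝ) ≤ 2 * D := by exact_mod_cast hs2.le
    nlinarith
  have h4 : 0 < (r : ℝ) * s := mul_pos hr' hs'
  calc 1 / (4 * (D : ℝ) ^ 2) ≤ 1 / ((r : ℝ) * s) := one_div_le_one_div_of_le h4 h3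
    _ ≤ _ := div_le_div_of_nonneg_right h2 h4.le

/-- the large sieve for a block -/
theorem Fr_sq (D i j : ℕ) (hD : 1 ≤ D) (hj : 2 ^ j ≤ 4 * D ^ 2) (β : ℝ) :
    ∑ p ∈ Fr D, ‖TT j (2 ^ i * ((p.2 : ℝ) / p.1 + β))‖ ^ 2 ≤ 240 * (D : ℝ) ^ 2 * 2 ^ j := by
  have hD' : (1 : ℝ) ≤ D := by exact_mod_cast hD
  have h := Pool.Agent.Helper94.TS.lsieve.lsieve (Σ _ : ℕ, ℕ) (Fr D)
    (fun p => 2 ^ i * ((p.2 : ℝ) / p.1 + β)) (1 / (4 * (D : ℝ) ^ 2)) (4 * D ^ 2) (by positivity)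
    (by push_cast; rw [one_div, inv_mul_cancel₀]; positivity)
    (fun p hp q hq hpq k => Fr_sep D i p q hp hq hpq β k)
    (fun n => if n < 2 ^ j then ((tmz n : ℤ) : ℂ) else 0)
  have h1 : ∀ x : ℝ, ∑ n ∈ range (4 * D ^ 2), (if n < 2 ^ j then ((tmz n : ℤ) : ℂ) else 0) *
      Pool.Agent.Helper64.AS.ee (n * x) = TT j x := by
    intro x
    unfold TT
    symm
    have hsub : range (2 ^ j) ⊆ range (4 * D ^ 2) := range_subset_range.mpr hj
    calc ∑ n ∈ range (2 ^ j), ((tmz n : ℤ) : ℂ) * ee (n * x)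
        = ∑ n ∈ range (2 ^ j), (if n < 2 ^ j then ((tmz n : ℤ) : ℂ) else 0) *
          Pool.Agent.Helper64.AS.ee (n * x) := by
          apply sum_congr rfl
          intro n hn
          rw [if_pos (mem_range.mp hn)]
          rfl
      _ = _ := by
          apply sum_subset hsub
          intro n _ hn
          rw [if_neg (by rwa [mem_range] at hn), zero_mul]
  have h2 : ∑ n ∈ range (4 * D ^ 2), ‖(if n < 2 ^ j then ((tmz n : ℤ) : ℂ) else 0)‖ ^ 2 =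
      (2 : ℝ) ^ j := by
    have hsub : range (2 ^ j) ⊆ range (4 * D ^ 2) := range_subset_range.mpr hj
    rw [← sum_subset hsub]
    · have h3 : ∀ n ∈ range (2 ^ j), ‖(if n < 2 ^ j then ((tmz n : ℤ) : ℂ) else 0)‖ ^ 2 = (1 : ℝ) := by
        intro n hn
        rw [if_pos (mem_range.mp hn), norm_tmz]
        norm_num
      rw [sum_congr rfl h3]
      simp
    · intro n _ hn
      rw [if_neg (by rwa [mem_range] at hn)]
      simp
  rw [h2] at h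
  simp only [h1] at h
  refine h.trans (le_of_eq ?_)
  push_cast
  ring

/-- L1 bound with two blocks -/
theorem Fr_two (D m ρ : ℕ) (hD : 1 ≤ D) (hm : 2 ^ m ≤ 4 * D ^ 2) (β : ℝ) :
    ∑ p ∈ Fr D, ‖TT (m + m + ρ) ((p.2 : ℝ) / p.1 + β)‖ ≤
      240 * (D : ℝ) ^ 2 * 2 ^ m * (2 * Real.sqrt 3 ^ ρ) := by
  have h0 := Fr_sq D 0 m hD hm β
  have h1 := Fr_sq D m m hD hm β
  have h2 : ∀ p ∈ Fr D, ‖TT (m + m + ρ) ((p.2 : ℝ) / p.1 + β)‖ ≤
      ((‖TT m (2 ^ 0 * ((p.2 : ℝ) / p.1 + β))‖ ^ 2 + ‖TT m (2 ^ m * ((p.2 : ℝ) / p.1 + β))‖ ^ 2) / 2) *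
        (2 * Real.sqrt 3 ^ ρ) := by
    intro p _
    rw [TT_add, TT_add, norm_mul, norm_mul, pow_zero, one_mul]
    have h3 := norm_TT_le ρ (2 ^ (m + m) * ((p.2 : ℝ) / p.1 + β))
    apply mul_le_mul _ h3 (norm_nonneg _)
    · positivity
    · nlinarith [sq_nonneg (‖TT m ((p.2 : ℝ) / p.1 + β)‖ - ‖TT m (2 ^ m * ((p.2 : ℝ) / p.1 + β))‖)]
  refine (sum_le_sum h2).trans ?_
  rw [← sum_mul]
  apply mul_le_mul_of_nonneg_right _ (by positivity)
  rw [← sum_div, sum_add_distrib]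
  linarith

/-- weighted L1 bound for one dyadic block of moduli -/
theorem Fr_one (L j : ℕ) (β : ℝ) :
    ∑ p ∈ Fr (2 ^ L), (1 / (p.1 : ℝ)) * ‖TT j ((p.2 : ℝ) / p.1 + β)‖ ≤
      480 * (8 / 9) ^ L * Real.sqrt 3 ^ j + 960 * 2 ^ L * Real.sqrt 2 ^ j := by
  have hD1 : 1 ≤ 2 ^ L := Nat.one_le_two_pow
  have hw : ∑ p ∈ Fr (2 ^ L), (1 / (p.1 : ℝ)) * ‖TT j ((p.2 : ℝ) / p.1 + β)‖ ≤
      (1 / 2 ^ L) * ∑ p ∈ Fr (2 ^ L), ‖TT j ((p.2 : ℝ) / p.1 + β)‖ := by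
    rw [mul_sum]
    apply sum_le_sum
    intro p hp
    unfold Fr at hp
    rw [mem_sigma] at hp
    simp only [mem_filter, mem_Ico] at hp
    have h1 : (2 : ℝ) ^ L ≤ p.1 := by exact_mod_cast hp.1.1.1
    exact mul_le_mul_of_nonneg_right (one_div_le_one_div_of_le (by positivity) h1) (norm_nonneg _)
  have hs3 := sqrt3_le
  have hs3' := sqrt3_ge
  have hs2 := sqrt2_ge
  rcases lt_or_ge j (4 * L) with h | h
  · -- short
    have hm : 2 ^ (j / 2) ≤ 4 * (2 ^ L) ^ 2 := by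
      rw [← pow_mul, show 4 = 2 ^ 2 by norm_num, ← pow_add]
      exact Nat.pow_le_pow_right (by norm_num) (by omega)
    have h2 := Fr_two (2 ^ L) (j / 2) (j % 2) hD1 hm β
    have h3 : j / 2 + j / 2 + j % 2 = j := by omega
    rw [h3] at h2
    push_cast at h2
    have h4 : (2 : ℝ) ^ (j / 2) * Real.sqrt 3 ^ (j % 2) ≤ 2 * Real.sqrt 2 ^ j := by
      have e0 : Real.sqrt 2 ^ 2 = 2 := Real.sq_sqrt (by norm_num)
      have e1 : Real.sqrt 2 ^ j = 2 ^ (j / 2) * Real.sqrt 2 ^ (j % 2) := by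
        have h6 : (2 : ℝ) ^ (j / 2) = Real.sqrt 2 ^ (2 * (j / 2)) := by
          rw [pow_mul, e0]
        rw [h6, ← pow_add]
        congr 1
        omega
      rw [e1]
      have e2 : Real.sqrt 3 ^ (j % 2) ≤ 2 * Real.sqrt 2 ^ (j % 2) := by
        have h8 : j % 2 = 0 ∨ j % 2 = 1 := by omega
        rcases h8 with h8 | h8
        · rw [h8]; norm_num
        · rw [h8, pow_one, pow_one]; linarith
      have e3 : (0 : ℝ) < 2 ^ (j / 2) := by positivity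
      nlinarith
    have h5 : (1 / (2 : ℝ) ^ L) * ∑ p ∈ Fr (2 ^ L), ‖TT j ((p.2 : ℝ) / p.1 + β)‖ ≤
        960 * 2 ^ L * Real.sqrt 2 ^ j := by
      have e4 : (1 / (2 : ℝ) ^ L) * ∑ p ∈ Fr (2 ^ L), ‖TT j ((p.2 : ℝ) / p.1 + β)‖ ≤
          (1 / (2 : ℝ) ^ L) * (240 * (2 ^ L) ^ 2 * 2 ^ (j / 2) * (2 * Real.sqrt 3 ^ (j % 2))) :=
        mul_le_mul_of_nonneg_left h2 (by positivity)
      refine e4.trans ?_
      have e5 : (1 / (2 : ℝ) ^ L) * (240 * (2 ^ L) ^ 2 * 2 ^ (j / 2) * (2 * Real.sqrt 3 ^ (j % 2))) =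
          480 * 2 ^ L * (2 ^ (j / 2) * Real.sqrt 3 ^ (j % 2)) := by
        field_simp
        ring
      rw [e5]
      have e6 := mul_le_mul_of_nonneg_left h4 (show (0 : ℝ) ≤ 480 * 2 ^ L by positivity)
      linarith
    have h6 : 0 ≤ 480 * (8 / 9 : ℝ) ^ L * Real.sqrt 3 ^ j := by positivity
    linarith
  · -- long
    have hm : 2 ^ (2 * L) ≤ 4 * (2 ^ L) ^ 2 := by
      rw [← pow_mul, mul_comm L 2]
      omega
    have h2 := Fr_two (2 ^ L) (2 * L) (j - 4 * L) hD1 hm β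
    have h3 : 2 * L + 2 * L + (j - 4 * L) = j := by omega
    rw [h3] at h2
    push_cast at h2
    have e0 : Real.sqrt 3 ^ j = 9 ^ L * Real.sqrt 3 ^ (j - 4 * L) := by
      have h6 : (9 : ℝ) ^ L = Real.sqrt 3 ^ (4 * L) := by
        rw [pow_mul]
        congr 1
        have : Real.sqrt 3 ^ 4 = (Real.sqrt 3 ^ 2) ^ 2 := by ring
        rw [this, sqrt3_sq]; norm_num
      rw [h6, ← pow_add]
      congr 1
      omega
    have h5 : (1 / (2 : ℝ) ^ L) * ∑ p ∈ Fr (2 ^ L), ‖TT j ((p.2 : ℝ) / p.1 + β)‖ ≤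
        480 * (8 / 9) ^ L * Real.sqrt 3 ^ j := by
      have e4 : (1 / (2 : ℝ) ^ L) * ∑ p ∈ Fr (2 ^ L), ‖TT j ((p.2 : ℝ) / p.1 + β)‖ ≤
          (1 / (2 : ℝ) ^ L) * (240 * (2 ^ L) ^ 2 * 2 ^ (2 * L) * (2 * Real.sqrt 3 ^ (j - 4 * L))) :=
        mul_le_mul_of_nonneg_left h2 (by positivity)
      refine e4.trans (le_of_eq ?_)
      rw [e0]
      have e6 : (8 / 9 : ℝ) ^ L * 9 ^ L = 2 ^ L * 2 ^ (2 * L) := by
        rw [← mul_pow, pow_mul, ← mul_pow]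
        norm_num
      have e7 : (1 / (2 : ℝ) ^ L) * (240 * (2 ^ L) ^ 2 * 2 ^ (2 * L) * (2 * Real.sqrt 3 ^ (j - 4 * L))) =
          480 * (2 ^ L * 2 ^ (2 * L)) * Real.sqrt 3 ^ (j - 4 * L) := by
        field_simp
        ring
      rw [e7, ← e6]
      ring
    have h6 : 0 ≤ 960 * 2 ^ L * Real.sqrt 2 ^ j := by positivity
    linarith

/-- the majorant of the exponential sums -/
noncomputable def hk (k : ℕ) (α : ℝ) : ℝ :=
  (1 / 3) * ∑ b ∈ range 6, ∑ j ∈ range (k + 1), ‖TT j (α + (b : ℝ) / 6)‖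

theorem hk_nonneg (k : ℕ) (α : ℝ) : 0 ≤ hk k α := by
  unfold hk
  positivity

/-- the mean over reduced fractions -/
noncomputable def AR (k r : ℕ) : ℝ :=
  (1 / (r : ℝ)) * ∑ a ∈ (range r).filter (fun a => 0 < a ∧ Nat.Coprime a r), hk k ((a : ℝ) / r)

theorem AR_nonneg (k r : ℕ) : 0 ≤ AR k r := by
  unfold AR
  have : ∀ a ∈ (range r).filter (fun a => 0 < a ∧ Nat.Coprime a r), 0 ≤ hk k ((a : ℝ) / r) :=
    fun a _ => hk_nonneg k _
  exact mul_nonneg (by positivity) (sum_nonneg this)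

theorem AR_dyadic (k L : ℕ) :
    ∑ r ∈ (Ico (2 ^ L) (2 * 2 ^ L)).filter (fun r => Nat.Coprime r 6), AR k r ≤
      4800 * ((8 / 9) ^ L * Real.sqrt 3 ^ k) + 9600 * (2 ^ L * Real.sqrt 2 ^ k) := by
  have h1 : ∑ r ∈ (Ico (2 ^ L) (2 * 2 ^ L)).filter (fun r => Nat.Coprime r 6), AR k r =
      (1 / 3) * ∑ b ∈ range 6, ∑ j ∈ range (k + 1), ∑ p ∈ Fr (2 ^ L),
        (1 / (p.1 : ℝ)) * ‖TT j ((p.2 : ℝ) / p.1 + (b : ℝ) / 6)‖ := by
    have e1 : ∑ r ∈ (Ico (2 ^ L) (2 * 2 ^ L)).filter (fun r => Nat.Coprime r 6), AR k r =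
        ∑ p ∈ Fr (2 ^ L), (1 / (p.1 : ℝ)) * hk k ((p.2 : ℝ) / p.1) := by
      unfold Fr AR
      rw [sum_sigma]
      apply sum_congr rfl
      intro r _
      rw [mul_sum]
    rw [e1]
    unfold hk
    simp_rw [mul_sum]
    rw [sum_comm]
    apply sum_congr rfl
    intro b _
    rw [sum_comm]
    apply sum_congr rfl
    intro j _
    apply sum_congr rfl
    intro p _
    ring
  rw [h1]
  have h2 : ∀ b ∈ range 6, ∑ j ∈ range (k + 1), ∑ p ∈ Fr (2 ^ L),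
        (1 / (p.1 : ℝ)) * ‖TT j ((p.2 : ℝ) / p.1 + (b : ℝ) / 6)‖ ≤
      2400 * ((8 / 9) ^ L * Real.sqrt 3 ^ k) + 4800 * (2 ^ L * Real.sqrt 2 ^ k) := by
    intro b _
    have h3 : ∀ j ∈ range (k + 1), ∑ p ∈ Fr (2 ^ L),
        (1 / (p.1 : ℝ)) * ‖TT j ((p.2 : ℝ) / p.1 + (b : ℝ) / 6)‖ ≤
        480 * (8 / 9) ^ L * Real.sqrt 3 ^ j + 960 * 2 ^ L * Real.sqrt 2 ^ j :=
      fun j _ => Fr_one L j _
    refine (sum_le_sum h3).trans ?_
    rw [sum_add_distrib, ← mul_sum, ← mul_sum]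
    have g1 := geom_le (Real.sqrt 3) (by linarith [sqrt3_ge]) k
    have g3 := geom_le (Real.sqrt 2) sqrt2_ge k
    have q1 := mul_le_mul_of_nonneg_left g1 (show (0 : ℝ) ≤ 480 * (8 / 9) ^ L by positivity)
    have q2 := mul_le_mul_of_nonneg_left g3 (show (0 : ℝ) ≤ 960 * 2 ^ L by positivity)
    linarith
  have h4 := sum_le_sum h2
  rw [sum_const, card_range] at h4
  simp only [nsmul_eq_mul] at h4
  push_cast at h4
  linarith

end Pool.Agent.Odious24
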