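import Mathlib
import Pool.Agent.Helper24.Odious2.LS

set_option autoImplicit false

namespace Pool.Agent.Odious24

open Finset

/-- the sum over the residue class b mod d -/
noncomputable def NN (y d b : ℕ) : ℂ := ∑ n ∈ range y, if n ≡ b [MOD d] then wt n else 0

theorem modEq_iff_int (n b d : ℕ) : n ≡ b [MOD d] ↔ (d : ℤ) ∣ ((n : ℤ) - b) := by
  constructor
  · intro h
    exact (Nat.modEq_iff_dvd).mp h.symm
  · intro h
    exact ((Nat.modEq_iff_dvd).mpr h).symm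

theorem NN_eq (y d b : ℕ) (hd : 0 < d) :
    NN y d b = (1 / (d : ℂ)) * ∑ a ∈ range d, ee (-((a : ℝ) * b / d)) * GG y ((a : ℝ) / d) := by
  have hd' : (d : ℂ) ≠ 0 := by exact_mod_cast hd.ne'
  unfold NN GG
  simp_rw [mul_sum]
  rw [sum_comm]
  apply sum_congr rfl
  intro n _
  have h1 : ∀ a ∈ range d, 1 / (d : ℂ) * (ee (-((a : ℝ) * b / d)) * (wt n * ee ((n : ℝ) * ((a : ℝ) / d)))) =
      (1 / (d : ℂ) * wt n) * ee ((a : ℝ) * ((((n : ℤ) - b : ℤ) : ℝ) / d)) := by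
    intro a _
    have h2 : (a : ℝ) * ((((n : ℤ) - b : ℤ) : ℝ) / d) = -((a : ℝ) * b / d) + (n : ℝ) * ((a : ℝ) / d) := by
      push_cast; ring
    rw [h2, ee_add]
    ring
  rw [sum_congr rfl h1, ← mul_sum, orth d hd]
  by_cases h : n ≡ b [MOD d]
  · rw [if_pos h, if_pos ((modEq_iff_int n b d).mp h)]
    field_simp
  · rw [if_neg h, if_neg (fun h2 => h ((modEq_iff_int n b d).mpr h2))]
    simp

theorem GG_le_hk (y k : ℕ) (hy : y < 2 ^ k) (α : ℝ) : ‖GG y α‖ ≤ hk k α := by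
  refine (GG_le y α).trans ?_
  unfold hk
  apply mul_le_mul_of_nonneg_left _ (by norm_num)
  apply sum_le_sum
  intro b _
  exact SS_bound k y _ hy

theorem sum_div_frac (d : ℕ) (hd : 0 < d) (f : ℝ → ℝ) (hf : ∀ x, 0 ≤ f x) :
    ∑ a ∈ (range d).erase 0, f ((a : ℝ) / d) ≤
      ∑ r ∈ d.divisors, ∑ a ∈ (range r).filter (fun a => 0 < a ∧ Nat.Coprime a r), f ((a : ℝ) / r) := by
  classical
  rw [← sum_sigma (d.divisors) (fun r => (range r).filter (fun a => 0 < a ∧ Nat.Coprime a r))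
    (fun p => f ((p.2 : ℝ) / p.1))]
  set e : ℕ → (Σ _ : ℕ, ℕ) := fun a => ⟨d / Nat.gcd a d, a / Nat.gcd a d⟩ with he
  have hgpos : ∀ a, 0 < Nat.gcd a d := fun a => Nat.gcd_pos_of_pos_right _ hd
  have hval : ∀ a, (((a / Nat.gcd a d : ℕ) : ℝ) / ((d / Nat.gcd a d : ℕ) : ℝ)) = (a : ℝ) / d := by
    intro a
    have hg : ((Nat.gcd a d : ℕ) : ℝ) ≠ 0 := by exact_mod_cast (hgpos a).ne'
    rw [Nat.cast_div (Nat.gcd_dvd_left a d) hg, Nat.cast_div (Nat.gcd_dvd_right a d) hg]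
    field_simp
  have hinj : Set.InjOn e ((range d).erase 0 : Finset ℕ) := by
    intro a _ a' _ h
    have h1 : d / Nat.gcd a d = d / Nat.gcd a' d := congrArg Sigma.fst h
    have h2 : a / Nat.gcd a d = a' / Nat.gcd a' d := by
      have := congrArg (fun p : (Σ _ : ℕ, ℕ) => p.2) h
      exact this
    have h3 := hval a
    rw [h1, h2, hval a'] at h3
    have hd' : (d : ℝ) ≠ 0 := by exact_mod_cast hd.ne'
    rw [div_left_inj' hd'] at h3
    exact_mod_cast h3.symm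
  have h1 : ∑ a ∈ (range d).erase 0, f ((a : ℝ) / d) =
      ∑ p ∈ ((range d).erase 0).image e, f ((p.2 : ℝ) / p.1) := by
    rw [sum_image hinj]
    apply sum_congr rfl
    intro a _
    simp only [he]
    rw [hval a]
  rw [h1]
  apply sum_le_sum_of_subset_of_nonneg
  · intro p hp
    rw [mem_image] at hp
    obtain ⟨a, ha, rfl⟩ := hp
    rw [mem_erase, mem_range] at ha
    simp only [he]
    rw [mem_sigma]
    simp only [Nat.mem_divisors, mem_filter, mem_range]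
    have ha0 : 0 < a := Nat.pos_of_ne_zero ha.1
    refine ⟨⟨Nat.div_dvd_of_dvd (Nat.gcd_dvd_right a d), hd.ne'⟩, ?_, ?_, ?_⟩
    · exact Nat.div_lt_div_of_lt_of_dvd (Nat.gcd_dvd_right a d) ha.2
    · exact Nat.div_pos (Nat.le_of_dvd ha0 (Nat.gcd_dvd_left a d)) (hgpos a)
    · exact Nat.coprime_div_gcd_div_gcd (hgpos a)
  · intro p _ _
    exact hf _

/-- the remainder of one class in terms of reduced fractions -/
theorem NN_sub_le (k y d b : ℕ) (hd : 0 < d) (hy : y < 2 ^ k) :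
    ‖NN y d b - (1 / (d : ℂ)) * GG y 0‖ ≤ (1 / (d : ℝ)) * ∑ r ∈ d.divisors, (r : ℝ) * AR k r := by
  have h1 : NN y d b - (1 / (d : ℂ)) * GG y 0 =
      (1 / (d : ℂ)) * ∑ a ∈ (range d).erase 0, ee (-((a : ℝ) * b / d)) * GG y ((a : ℝ) / d) := by
    rw [NN_eq y d b hd, ← Finset.add_sum_erase (range d)
      (fun a : ℕ => ee (-((a : ℝ) * b / d)) * GG y ((a : ℝ) / d)) (mem_range.mpr hd)]
    simp only [Nat.cast_zero, zero_div, zero_mul, neg_zero, ee_zero, one_mul]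
    ring
  rw [h1, norm_mul]
  have h2 : ‖(1 / (d : ℂ))‖ = 1 / (d : ℝ) := by
    rw [norm_div, norm_one, Complex.norm_natCast]
  rw [h2]
  apply mul_le_mul_of_nonneg_left _ (by positivity)
  refine (norm_sum_le _ _).trans ?_
  have h3 : ∀ a ∈ (range d).erase 0, ‖ee (-((a : ℝ) * b / d)) * GG y ((a : ℝ) / d)‖ ≤ hk k ((a : ℝ) / d) := by
    intro a _
    rw [norm_mul, norm_ee, one_mul]
    exact GG_le_hk y k hy _
  refine (sum_le_sum h3).trans ?_
  refine (sum_div_frac d hd (hk k) (hk_nonneg k)).trans (le_of_eq ?_)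
  apply sum_congr rfl
  intro r hr
  have hr0 : 0 < r := Nat.pos_of_mem_divisors hr
  have hr' : (r : ℝ) ≠ 0 := by exact_mod_cast hr0.ne'
  unfold AR
  field_simp

/-- rearrangement of a sum over divisors -/
theorem sum_div_le (A E : Finset ℕ) (hpos : ∀ d ∈ A, 0 < d) (h1 : ∀ d ∈ A, ∀ r, r ∣ d → r ∈ A)
    (h2 : ∀ d ∈ A, d ∈ E) (F G : ℕ → ℕ → ℝ) (hG : ∀ r e, 0 ≤ G r e)
    (h : ∀ r e, 0 < r → 0 < e → F (r * e) r ≤ G r e) :
    ∑ d ∈ A, ∑ r ∈ d.divisors, F d r ≤ ∑ r ∈ A, ∑ e ∈ E, G r e := by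
  classical
  have hstep : ∑ d ∈ A, ∑ r ∈ d.divisors, F d r ≤ ∑ d ∈ A, ∑ r ∈ d.divisors, G r (d / r) := by
    apply sum_le_sum
    intro d hd
    apply sum_le_sum
    intro r hr
    have hr0 : 0 < r := Nat.pos_of_mem_divisors hr
    have hrd : r ∣ d := Nat.dvd_of_mem_divisors hr
    have he : r * (d / r) = d := Nat.mul_div_cancel' hrd
    have he0 : 0 < d / r := Nat.div_pos (Nat.le_of_dvd (hpos d hd) hrd) hr0
    have := h r (d / r) hr0 he0
    rw [he] at this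
    exact this
  refine hstep.trans ?_
  rw [← sum_sigma A (fun d => d.divisors) (fun p => G p.2 (p.1 / p.2)),
    ← sum_sigma A (fun _ => E) (fun p => G p.1 p.2)]
  set e : (Σ _ : ℕ, ℕ) → (Σ _ : ℕ, ℕ) := fun p => ⟨p.2, p.1 / p.2⟩ with he
  have hinj : Set.InjOn e (A.sigma (fun d => d.divisors) : Finset (Σ _ : ℕ, ℕ)) := by
    rintro ⟨d, r⟩ hp ⟨d', r'⟩ hp' hpp
    rw [mem_coe, mem_sigma] at hp hp'
    simp only [he] at hpp
    have e1 : r = r' := congrArg Sigma.fst hpp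
    subst e1
    have e2 : d / r = d' / r := by
      have := congrArg (fun p : (Σ _ : ℕ, ℕ) => p.2) hpp
      exact this
    have f1 : r * (d / r) = d := Nat.mul_div_cancel' (Nat.dvd_of_mem_divisors hp.2)
    have f2 : r * (d' / r) = d' := Nat.mul_div_cancel' (Nat.dvd_of_mem_divisors hp'.2)
    have : d = d' := by rw [← f1, ← f2, e2]
    subst this
    rfl
  have himg : ∑ p ∈ A.sigma (fun d => d.divisors), G p.2 (p.1 / p.2) =
      ∑ q ∈ (A.sigma (fun d => d.divisors)).image e, G q.1 q.2 := by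
    rw [sum_image hinj]
  rw [himg]
  apply sum_le_sum_of_subset_of_nonneg
  · intro q hq
    rw [mem_image] at hq
    obtain ⟨⟨d, r⟩, hp, rfl⟩ := hq
    rw [mem_sigma] at hp
    simp only [he]
    rw [mem_sigma]
    have hrd : r ∣ d := Nat.dvd_of_mem_divisors hp.2
    exact ⟨h1 d hp.1 r hrd, h2 _ (h1 d hp.1 _ (Nat.div_dvd_of_dvd hrd))⟩
  · intro q _ _
    exact hG _ _

theorem harm (D : ℕ) : ∑ e ∈ Icc 1 D, 1 / (e : ℝ) ≤ 1 + Real.log D := by
  have h := harmonic_le_one_add_log D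
  rw [harmonic_eq_sum_Icc] at h
  push_cast at h
  simpa [one_div] using h

theorem harm_nonneg (D : ℕ) : 0 ≤ ∑ e ∈ Icc 1 D, 1 / (e : ℝ) := sum_nonneg (fun _ _ => by positivity)

/-- the number of divisors as a real number -/
noncomputable def tau (n : ℕ) : ℝ := (n.divisors.card : ℝ)

theorem tau_nonneg (n : ℕ) : 0 ≤ tau n := by unfold tau; positivity

theorem tau_mul (a b : ℕ) : tau (a * b) ≤ tau a * tau b := by
  unfold tau
  have h : (a * b).divisors.card ≤ a.divisors.card * b.divisors.card := by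
    rw [Nat.divisors_mul]
    exact card_mul_le
  exact_mod_cast h

theorem tau_sum (n : ℕ) : tau n = ∑ _r ∈ n.divisors, (1 : ℝ) := by
  unfold tau; simp

theorem sum_tau (D : ℕ) : ∑ e ∈ Icc 1 D, tau e / (e : ℝ) ≤ (∑ e ∈ Icc 1 D, 1 / (e : ℝ)) ^ 2 := by
  have h1 : ∑ e ∈ Icc 1 D, tau e / (e : ℝ) = ∑ d ∈ Icc 1 D, ∑ r ∈ d.divisors, 1 / (d : ℝ) := by
    apply sum_congr rfl
    intro d _
    rw [sum_const, nsmul_eq_mul]
    unfold tau
    ring
  rw [h1]
  have h2 := sum_div_le (Icc 1 D) (Icc 1 D) (fun d hd => by rw [mem_Icc] at hd; omega)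
    (fun d hd r hr => by
      rw [mem_Icc] at hd ⊢
      have := Nat.le_of_dvd (by omega) hr
      have := Nat.pos_of_dvd_of_pos hr (by omega)
      omega)
    (fun d hd => hd) (fun d _ => 1 / (d : ℝ)) (fun r e => (1 / (r : ℝ)) * (1 / (e : ℝ)))
    (fun r e => by positivity) (fun r e hr he => by
      push_cast
      rw [one_div_mul_one_div])
  refine h2.trans (le_of_eq ?_)
  rw [sq, sum_mul_sum]

theorem sum_tau_sq (D : ℕ) : ∑ e ∈ Icc 1 D, tau e ^ 2 / (e : ℝ) ≤ (1 + Real.log D) ^ 4 := by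
  have h1 : ∑ e ∈ Icc 1 D, tau e ^ 2 / (e : ℝ) = ∑ d ∈ Icc 1 D, ∑ r ∈ d.divisors, tau d / (d : ℝ) := by
    apply sum_congr rfl
    intro d _
    rw [sum_const, nsmul_eq_mul]
    unfold tau
    ring
  rw [h1]
  have h2 := sum_div_le (Icc 1 D) (Icc 1 D) (fun d hd => by rw [mem_Icc] at hd; omega)
    (fun d hd r hr => by
      rw [mem_Icc] at hd ⊢
      have := Nat.le_of_dvd (by omega) hr
      have := Nat.pos_of_dvd_of_pos hr (by omega)
      omega)
    (fun d hd => hd) (fun d _ => tau d / (d : ℝ)) (fun r e => (tau r / (r : ℝ)) * (tau e / (e : ℝ)))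
    (fun r e => by
      have := tau_nonneg r
      have := tau_nonneg e
      positivity) (fun r e hr he => by
      push_cast
      rw [div_mul_div_comm]
      exact div_le_div_of_nonneg_right (tau_mul r e) (by positivity))
  refine h2.trans ?_
  rw [← sum_mul_sum]
  have h3 := sum_tau D
  have h4 := harm D
  have h5 := harm_nonneg D
  have h6 : 0 ≤ ∑ e ∈ Icc 1 D, tau e / (e : ℝ) := sum_nonneg (fun e _ => by
    have := tau_nonneg e
    positivity)
  calc _ = (∑ e ∈ Icc 1 D, tau e / (e : ℝ)) ^ 2 := by ring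
    _ ≤ ((∑ e ∈ Icc 1 D, 1 / (e : ℝ)) ^ 2) ^ 2 := pow_le_pow_left₀ h6 h3 2
    _ = (∑ e ∈ Icc 1 D, 1 / (e : ℝ)) ^ 4 := by ring
    _ ≤ _ := pow_le_pow_left₀ h5 h4 4

/-- the moduli -/
def Mod6 (D : ℕ) : Finset ℕ := (Icc 1 D).filter (fun d => Nat.Coprime d 6)

theorem total_le (k D : ℕ) (y b : ℕ → ℕ) (hy : ∀ d, y d < 2 ^ k) :
    ∑ d ∈ Mod6 D, tau d ^ 2 * ‖NN (y d) d (b d) - (1 / (d : ℂ)) * GG (y d) 0‖ ≤
      (1 + Real.log D) ^ 4 * ∑ r ∈ Mod6 D, tau r ^ 2 * AR k r := by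
  have hpos : ∀ d ∈ Mod6 D, 0 < d := by
    intro d hd
    unfold Mod6 at hd
    rw [mem_filter, mem_Icc] at hd
    omega
  have h1 : ∑ d ∈ Mod6 D, tau d ^ 2 * ‖NN (y d) d (b d) - (1 / (d : ℂ)) * GG (y d) 0‖ ≤
      ∑ d ∈ Mod6 D, ∑ r ∈ d.divisors, tau d ^ 2 * (1 / (d : ℝ)) * ((r : ℝ) * AR k r) := by
    apply sum_le_sum
    intro d hd
    rw [← mul_sum, mul_assoc]
    apply mul_le_mul_of_nonneg_left _ (by have := tau_nonneg d; positivity)
    exact NN_sub_le k (y d) d (b d) (hpos d hd) (hy d)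
  refine h1.trans ?_
  have h2 := sum_div_le (Mod6 D) (Icc 1 D) hpos
    (fun d hd r hr => by
      unfold Mod6 at hd ⊢
      rw [mem_filter, mem_Icc] at hd ⊢
      have h3 := Nat.le_of_dvd (by omega) hr
      have h4 := Nat.pos_of_dvd_of_pos hr (by omega)
      exact ⟨by omega, Nat.Coprime.coprime_dvd_left hr hd.2⟩)
    (fun d hd => by
      unfold Mod6 at hd
      exact (mem_filter.mp hd).1)
    (fun d r => tau d ^ 2 * (1 / (d : ℝ)) * ((r : ℝ) * AR k r))
    (fun r e => (tau r ^ 2 * AR k r) * (tau e ^ 2 / (e : ℝ)))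
    (fun r e => by
      have := tau_nonneg r
      have := tau_nonneg e
      have := AR_nonneg k r
      positivity) (fun r e hr he => by
      have hr' : (0 : ℝ) < r := by exact_mod_cast hr
      have he' : (0 : ℝ) < e := by exact_mod_cast he
      have h3 := tau_mul r e
      have h4 := tau_nonneg (r * e)
      have h5 : tau (r * e) ^ 2 ≤ (tau r * tau e) ^ 2 := pow_le_pow_left₀ h4 h3 2
      have h6 := AR_nonneg k r
      have h7 : tau (r * e) ^ 2 * (1 / ((r * e : ℕ) : ℝ)) * ((r : ℝ) * AR k r) =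
          tau (r * e) ^ 2 * (AR k r / e) := by
        push_cast
        field_simp
      have h8 : (tau r ^ 2 * AR k r) * (tau e ^ 2 / (e : ℝ)) = (tau r * tau e) ^ 2 * (AR k r / e) := by
        ring
      rw [h7, h8]
      exact mul_le_mul_of_nonneg_right h5 (by positivity))
  refine h2.trans ?_
  rw [← sum_mul_sum, mul_comm]
  apply mul_le_mul_of_nonneg_right (sum_tau_sq D)
  apply sum_nonneg
  intro r _
  have := AR_nonneg k r
  have := tau_nonneg r
  positivity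

end Pool.Agent.Odious24
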