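import Mathlib
import Pool.Agent.Helper24.Odious2.Dec
import Pool.Agent.Helper73.RK.DivBound

set_option autoImplicit false

namespace Pool.Agent.Odious24

open Finset

theorem AR_le_MM (k r : ℕ) : AR k r ≤ ∑ j ∈ range (k + 1), MM j r := by
  unfold AR MM hk
  rw [← mul_sum (range (k + 1))]
  apply mul_le_mul_of_nonneg_left _ (by positivity)
  have h1 : ∑ a ∈ (range r).filter (fun a => 0 < a ∧ Nat.Coprime a r),
      (1 / 3) * ∑ b ∈ range 6, ∑ j ∈ range (k + 1), ‖TT j ((a : ℝ) / r + (b : ℝ) / 6)‖ ≤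
      ∑ a ∈ (range r).erase 0, (1 / 3) * ∑ b ∈ range 6, ∑ j ∈ range (k + 1),
        ‖TT j ((a : ℝ) / r + (b : ℝ) / 6)‖ := by
    apply sum_le_sum_of_subset_of_nonneg
    · intro a ha
      rw [mem_filter, mem_range] at ha
      rw [mem_erase, mem_range]
      exact ⟨ha.2.1.ne', ha.1⟩
    · intro a _ _
      positivity
  refine h1.trans (le_of_eq ?_)
  rw [sum_comm]
  apply sum_congr rfl
  intro a _
  rw [← mul_sum]
  congr 1
  rw [sum_comm]

theorem small_part (k L1 D : ℕ) :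
    ∑ r ∈ (Mod6 D).filter (fun r => r < 2 ^ L1), tau r ^ 2 * AR k r ≤
      20 * (2 ^ L1) ^ 3 * (Real.sqrt 3 ^ k * Real.exp (-(k : ℝ) / (216 * (2 * L1 + 3)))) := by
  set X := Real.sqrt 3 ^ k * Real.exp (-(k : ℝ) / (216 * (2 * L1 + 3))) with hX
  have hX0 : 0 ≤ X := by positivity
  have h1 : ∀ r ∈ (Mod6 D).filter (fun r => r < 2 ^ L1), tau r ^ 2 * AR k r ≤
      (2 ^ L1) ^ 2 * (20 * X) := by
    intro r hr
    unfold Mod6 at hr
    rw [mem_filter, mem_filter, mem_Icc] at hr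
    obtain ⟨⟨⟨hr1, _⟩, hr6⟩, hr2⟩ := hr
    have h2 : tau r ≤ 2 ^ L1 := by
      unfold tau
      have := Nat.card_divisors_le_self r
      have h3 : r.divisors.card ≤ 2 ^ L1 := by omega
      exact_mod_cast h3
    have h3 : AR k r ≤ 20 * X := by
      refine (AR_le_MM k r).trans ((sum_MM_sup k r hr1 hr6).trans ?_)
      apply mul_le_mul_of_nonneg_left _ (by norm_num)
      rw [hX]
      apply mul_le_mul_of_nonneg_left _ (by positivity)
      apply Real.exp_le_exp.mpr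
      rw [neg_div, neg_div, neg_le_neg_iff]
      have h4 : Nat.log 2 r ≤ L1 := (Nat.log_lt_of_lt_pow (by omega) hr2).le
      have h5 : ((Nat.log 2 r : ℕ) : ℝ) ≤ L1 := by exact_mod_cast h4
      have h6 : (0 : ℝ) ≤ ((Nat.log 2 r : ℕ) : ℝ) := by positivity
      apply div_le_div_of_nonneg_left (by positivity) (by positivity)
      linarith
    apply mul_le_mul (pow_le_pow_left₀ (tau_nonneg r) h2 2) h3 (AR_nonneg k r) (by positivity)
  refine (sum_le_sum h1).trans ?_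
  rw [sum_const, nsmul_eq_mul]
  have h2 : (((Mod6 D).filter (fun r => r < 2 ^ L1)).card : ℝ) ≤ 2 ^ L1 := by
    have h3 : (Mod6 D).filter (fun r => r < 2 ^ L1) ⊆ range (2 ^ L1) := by
      intro r hr
      rw [mem_filter] at hr
      exact mem_range.mpr hr.2
    have h4 := card_le_card h3
    rw [card_range] at h4
    exact_mod_cast h4
  calc _ ≤ 2 ^ L1 * ((2 ^ L1) ^ 2 * (20 * X)) := mul_le_mul_of_nonneg_right h2 (by positivity)
    _ = _ := by ring

theorem tau_sq_bound (ρ : ℝ) (hρ : 1 < ρ) : ∃ C : ℝ, 0 < C ∧ ∀ n L : ℕ, 1 ≤ n → n ≤ 2 ^ (L + 1) →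
    tau n ^ 2 ≤ C * ρ ^ L := by
  obtain ⟨m, hm⟩ := pow_unbounded_of_one_lt (2 : ℝ) hρ
  have hm0 : m ≠ 0 := by
    rintro rfl
    rw [pow_zero] at hm
    linarith
  obtain ⟨C, hC1, hC⟩ := Pool.Agent.Helper73.RK.card_divisors_pow_le (2 * m)
  have hCr : (1 : ℝ) ≤ C := by exact_mod_cast hC1
  have hρ0 : 0 < ρ := by linarith
  refine ⟨ρ * C, by positivity, fun n L hn hnL => ?_⟩
  have h1 : tau n ^ (2 * m) ≤ C * n := by
    unfold tau
    exact_mod_cast hC n (by omega)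
  have h2 : (n : ℝ) ≤ 2 ^ (L + 1) := by exact_mod_cast hnL
  have h3 : (tau n ^ 2) ^ m ≤ ((C : ℝ) * ρ ^ (L + 1)) ^ m := by
    calc (tau n ^ 2) ^ m = tau n ^ (2 * m) := by rw [← pow_mul]
      _ ≤ (C : ℝ) * n := h1
      _ ≤ (C : ℝ) * 2 ^ (L + 1) := by gcongr
      _ ≤ (C : ℝ) ^ m * (ρ ^ m) ^ (L + 1) := by
          apply mul_le_mul _ _ (by positivity) (by positivity)
          · exact le_self_pow₀ hCr hm0
          · exact pow_le_pow_left₀ (by norm_num) hm.le _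
      _ = ((C : ℝ) * ρ ^ (L + 1)) ^ m := by
          rw [mul_pow, ← pow_mul, ← pow_mul, mul_comm m (L + 1)]
  have h4 : tau n ^ 2 ≤ (C : ℝ) * ρ ^ (L + 1) :=
    le_of_pow_le_pow_left₀ hm0 (by positivity) h3
  refine h4.trans (le_of_eq ?_)
  rw [pow_succ]
  ring

theorem geom_decay (a n : ℕ) : ∑ L ∈ Ico a (a + n), (9 / 10 : ℝ) ^ L =
    10 * (9 / 10) ^ a - 10 * (9 / 10) ^ (a + n) := by
  induction n with
  | zero => simp
  | succ n ih =>
    rw [← add_assoc, sum_Ico_succ_top (by omega), ih, pow_succ]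
    ring

theorem large_part (ρ : ℝ) (hρ1 : 1 < ρ) (hρ2 : ρ ≤ 81 / 80) (C : ℝ) (hC0 : 0 < C)
    (hC : ∀ n L : ℕ, 1 ≤ n → n ≤ 2 ^ (L + 1) → tau n ^ 2 ≤ C * ρ ^ L) (k L1 D : ℕ) :
    ∑ r ∈ (Mod6 D).filter (fun r => ¬ r < 2 ^ L1), tau r ^ 2 * AR k r ≤
      48000 * C * ((9 / 10) ^ L1 * Real.sqrt 3 ^ k) +
      48000 * C * ((2 * ρ) ^ (Nat.log 2 D) * Real.sqrt 2 ^ k) := by
  have hρ0 : 0 < ρ := by linarith
  have hmaps : ∀ r ∈ (Mod6 D).filter (fun r => ¬ r < 2 ^ L1), Nat.log 2 r ∈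
      Ico L1 (L1 + (Nat.log 2 D + 1)) := by
    intro r hr
    unfold Mod6 at hr
    rw [mem_filter, mem_filter, mem_Icc, not_lt] at hr
    obtain ⟨⟨⟨hr1, hrD⟩, hr6⟩, hr2⟩ := hr
    rw [mem_Ico]
    have h1 : L1 ≤ Nat.log 2 r := Nat.le_log_of_pow_le (by norm_num) hr2
    have h2 : Nat.log 2 r ≤ Nat.log 2 D := Nat.log_mono_right hrD
    omega
  rw [← sum_fiberwise_of_maps_to hmaps]
  have hb : ∀ L ∈ Ico L1 (L1 + (Nat.log 2 D + 1)),
      ∑ r ∈ ((Mod6 D).filter (fun r => ¬ r < 2 ^ L1)).filter (fun r => Nat.log 2 r = L),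
        tau r ^ 2 * AR k r ≤
      (4800 * C * Real.sqrt 3 ^ k) * (9 / 10) ^ L +
        (if L ∈ range (Nat.log 2 D + 1) then (9600 * C * Real.sqrt 2 ^ k) * (2 * ρ) ^ L else 0) := by
    intro L _
    by_cases hLD : L ∈ range (Nat.log 2 D + 1)
    · rw [if_pos hLD]
      have h1 : ∑ r ∈ ((Mod6 D).filter (fun r => ¬ r < 2 ^ L1)).filter (fun r => Nat.log 2 r = L),
          tau r ^ 2 * AR k r ≤
          ∑ r ∈ (Ico (2 ^ L) (2 * 2 ^ L)).filter (fun r => Nat.Coprime r 6),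
            (C * ρ ^ L) * AR k r := by
        have e1 : ((Mod6 D).filter (fun r => ¬ r < 2 ^ L1)).filter (fun r => Nat.log 2 r = L) ⊆
            (Ico (2 ^ L) (2 * 2 ^ L)).filter (fun r => Nat.Coprime r 6) := by
          intro r hr
          unfold Mod6 at hr
          rw [mem_filter, mem_filter, mem_filter, mem_Icc] at hr
          obtain ⟨⟨⟨⟨hr1, hrD⟩, hr6⟩, hr2⟩, hr3⟩ := hr
          rw [mem_filter, mem_Ico]
          refine ⟨⟨?_, ?_⟩, hr6⟩
          · rw [← hr3]; exact Nat.pow_log_le_self 2 (by omega)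
          · rw [← hr3, ← pow_succ']; exact Nat.lt_pow_succ_log_self (by norm_num) r
        refine (sum_le_sum_of_subset_of_nonneg e1 (fun r _ _ => ?_)).trans (sum_le_sum ?_)
        · have := tau_nonneg r
          have := AR_nonneg k r
          positivity
        · intro r hr
          rw [mem_filter, mem_Ico] at hr
          apply mul_le_mul_of_nonneg_right _ (AR_nonneg k r)
          apply hC r L
          · have : 1 ≤ 2 ^ L := Nat.one_le_two_pow
            omega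
          · rw [pow_succ']; omega
      rw [← mul_sum] at h1
      have h2 := mul_le_mul_of_nonneg_left (AR_dyadic k L) (show 0 ≤ C * ρ ^ L by positivity)
      refine (h1.trans h2).trans ?_
      have h3 : ρ ^ L * (8 / 9) ^ L ≤ (9 / 10) ^ L := by
        rw [← mul_pow]
        exact pow_le_pow_left₀ (by positivity) (by linarith) L
      have h4 : ρ ^ L * 2 ^ L = (2 * ρ) ^ L := by
        rw [← mul_pow, mul_comm ρ 2]
      have h5 := mul_le_mul_of_nonneg_left h3 (show 0 ≤ 4800 * C * Real.sqrt 3 ^ k by positivity)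
      rw [← h4]
      nlinarith [h5]
    · rw [if_neg hLD]
      have e1 : ((Mod6 D).filter (fun r => ¬ r < 2 ^ L1)).filter (fun r => Nat.log 2 r = L) = ∅ := by
        apply filter_eq_empty_iff.mpr
        intro r hr
        unfold Mod6 at hr
        rw [mem_filter, mem_filter, mem_Icc] at hr
        obtain ⟨⟨⟨hr1, hrD⟩, hr6⟩, hr2⟩ := hr
        intro hL
        apply hLD
        rw [mem_range, ← hL]
        have h2 : Nat.log 2 r ≤ Nat.log 2 D := Nat.log_mono_right hrD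
        omega
      rw [e1, sum_empty]
      positivity
  refine (sum_le_sum hb).trans ?_
  rw [sum_add_distrib, ← mul_sum, geom_decay]
  have h6 : ∑ L ∈ Ico L1 (L1 + (Nat.log 2 D + 1)),
      (if L ∈ range (Nat.log 2 D + 1) then (9600 * C * Real.sqrt 2 ^ k) * (2 * ρ) ^ L else 0) ≤
      ∑ L ∈ range (Nat.log 2 D + 1), (9600 * C * Real.sqrt 2 ^ k) * (2 * ρ) ^ L := by
    rw [← sum_filter]
    apply sum_le_sum_of_subset_of_nonneg
    · intro L hL
      rw [mem_filter] at hL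
      exact hL.2
    · intro L _ _
      positivity
  rw [← mul_sum] at h6
  have h7 := geom_le (2 * ρ) (by linarith) (Nat.log 2 D)
  have h8 := mul_le_mul_of_nonneg_left h7 (show 0 ≤ 9600 * C * Real.sqrt 2 ^ k by positivity)
  have h9 : 0 ≤ 4800 * C * Real.sqrt 3 ^ k * (10 * (9 / 10) ^ (L1 + (Nat.log 2 D + 1))) := by positivity
  nlinarith [h6, h8, h9]

theorem tot_bound (ρ : ℝ) (hρ1 : 1 < ρ) (hρ2 : ρ ≤ 81 / 80) (C : ℝ) (hC0 : 0 < C)
    (hC : ∀ n L : ℕ, 1 ≤ n → n ≤ 2 ^ (L + 1) → tau n ^ 2 ≤ C * ρ ^ L)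
    (k L1 D : ℕ) (y b : ℕ → ℕ) (hy : ∀ d, y d < 2 ^ k) :
    ∑ d ∈ Mod6 D, tau d ^ 2 * ‖NN (y d) d (b d) - (1 / (d : ℂ)) * GG (y d) 0‖ ≤
      (1 + Real.log D) ^ 4 * (20 * (2 ^ L1) ^ 3 * (Real.sqrt 3 ^ k *
        Real.exp (-(k : ℝ) / (216 * (2 * L1 + 3)))) +
      48000 * C * ((9 / 10) ^ L1 * Real.sqrt 3 ^ k) +
      48000 * C * ((2 * ρ) ^ (Nat.log 2 D) * Real.sqrt 2 ^ k)) := by
  refine (total_le k D y b hy).trans ?_
  have hlog : 0 ≤ 1 + Real.log D := by
    rcases Nat.eq_zero_or_pos D with h | h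
    · subst h; simp
    · have := Real.log_nonneg (show (1 : ℝ) ≤ D by exact_mod_cast h)
      linarith
  apply mul_le_mul_of_nonneg_left _ (by positivity)
  rw [← sum_filter_add_sum_filter_not (Mod6 D) (fun r => r < 2 ^ L1)]
  have h1 := small_part k L1 D
  have h2 := large_part ρ hρ1 hρ2 C hC0 hC k L1 D
  linarith

end Pool.Agent.Odious24
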