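import Mathlib
import Pool.Agent.Helper24.Odious2.Tot

set_option autoImplicit false

namespace Pool.Agent.Odious24

open Finset Filter

theorem lam_ge : 42 / 53 ≤ lam := by
  unfold lam
  have h2 := Real.log_pos (show (1 : ℝ) < 4 by norm_num)
  rw [le_div_iff₀ h2]
  have h5 : Real.log (4 ^ 42) ≤ Real.log (3 ^ 53) := Real.log_le_log (by norm_num) (by norm_num)
  rw [Real.log_pow, Real.log_pow] at h5
  push_cast at h5
  linarith

theorem third_term (Δ γ δ : ℝ) (hΔ0 : 0 ≤ Δ) (hΔ1 : Δ ≤ 1) (hδ0 : 0 < δ) (hδ : δ ≤ γ)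
    (hγ : Δ + 2 * γ ≤ lam - 1 / 2) (x D k : ℕ) (hx : 1 ≤ x) (hD : 1 ≤ D)
    (hDx : (D : ℝ) ≤ (x : ℝ) ^ Δ) (hk : 2 ^ k ≤ 2 * x) :
    (2 * (2 : ℝ) ^ δ) ^ (Nat.log 2 D) * Real.sqrt 2 ^ k ≤ 2 * ((x : ℝ) ^ lam * (x : ℝ) ^ (-γ)) := by
  have hx1 : (1 : ℝ) ≤ x := by exact_mod_cast hx
  have hx0 : (0 : ℝ) < x := by linarith
  have h2k := sqrt2_pow_le x k hk
  set n := Nat.log 2 D with hn
  have h1 : (2 : ℝ) ^ n ≤ (x : ℝ) ^ Δ := by
    refine le_trans ?_ hDx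
    exact_mod_cast Nat.pow_log_le_self 2 (by omega : D ≠ 0)
  have h2 : 2 * (2 : ℝ) ^ δ = (2 : ℝ) ^ (1 + δ) := by
    rw [Real.rpow_add (by norm_num), Real.rpow_one]
  have h3 : (2 * (2 : ℝ) ^ δ) ^ n ≤ (x : ℝ) ^ (Δ * (1 + δ)) := by
    rw [h2]
    calc ((2 : ℝ) ^ (1 + δ)) ^ n = ((2 : ℝ) ^ n) ^ (1 + δ) := by
          rw [← Real.rpow_natCast, ← Real.rpow_natCast, ← Real.rpow_mul (by norm_num),
            ← Real.rpow_mul (by norm_num), mul_comm]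
      _ ≤ ((x : ℝ) ^ Δ) ^ (1 + δ) := Real.rpow_le_rpow (by positivity) h1 (by linarith)
      _ = (x : ℝ) ^ (Δ * (1 + δ)) := by rw [← Real.rpow_mul hx0.le]
  calc (2 * (2 : ℝ) ^ δ) ^ n * Real.sqrt 2 ^ k ≤ (x : ℝ) ^ (Δ * (1 + δ)) * (2 * (x : ℝ) ^ (1 / 2 : ℝ)) :=
        mul_le_mul h3 h2k (by positivity) (by positivity)
    _ = 2 * (x : ℝ) ^ (Δ * (1 + δ) + 1 / 2) := by
        rw [Real.rpow_add hx0]; ring
    _ ≤ 2 * (x : ℝ) ^ (lam + -γ) := by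
        apply mul_le_mul_of_nonneg_left _ (by norm_num)
        apply Real.rpow_le_rpow_of_exponent_le hx1
        nlinarith
    _ = _ := by rw [Real.rpow_add hx0]

theorem second_term (s : ℝ) (hs : 0 ≤ s) :
    (9 / 10 : ℝ) ^ (⌊s / 100⌋₊) ≤ 2 * Real.exp (-s / 1000) := by
  set n := ⌊s / 100⌋₊ with hn
  have h1 : s / 100 < n + 1 := Nat.lt_floor_add_one _
  have h2 : (9 / 10 : ℝ) ≤ Real.exp (-(1 / 10)) := by
    have := Real.add_one_le_exp (-(1 / 10) : ℝ)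
    linarith
  calc (9 / 10 : ℝ) ^ n ≤ Real.exp (-(1 / 10)) ^ n := pow_le_pow_left₀ (by norm_num) h2 n
    _ = Real.exp (n * (-(1 / 10))) := by rw [← Real.exp_nat_mul]
    _ ≤ Real.exp (1 / 10 + -s / 1000) := by
        apply Real.exp_le_exp.mpr
        linarith
    _ = Real.exp (1 / 10) * Real.exp (-s / 1000) := Real.exp_add _ _
    _ ≤ 2 * Real.exp (-s / 1000) := by
        apply mul_le_mul_of_nonneg_right _ (Real.exp_pos _).le
        have h3 : Real.exp (1 / 10) ≤ Real.exp (Real.log 2) := by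
          apply Real.exp_le_exp.mpr
          have := Real.log_two_gt_d9
          linarith
        rw [Real.exp_log (by norm_num)] at h3
        exact h3

theorem first_term (s : ℝ) (hs : 1000 ≤ s) (k : ℕ) (hk : s ^ 2 ≤ k) :
    ((2 : ℝ) ^ (⌊s / 100⌋₊)) ^ 3 * Real.exp (-(k : ℝ) / (216 * (2 * (⌊s / 100⌋₊ : ℕ) + 3))) ≤
      Real.exp (-s / 1000) := by
  set n := ⌊s / 100⌋₊ with hn
  have h1 : (n : ℝ) ≤ s / 100 := Nat.floor_le (by positivity)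
  have hn0 : (0 : ℝ) ≤ n := by positivity
  have h2 : ((2 : ℝ) ^ n) ^ 3 ≤ Real.exp (3 * s / 100) := by
    have h3 : (2 : ℝ) ≤ Real.exp 1 := by
      have := Real.add_one_le_exp (1 : ℝ)
      linarith
    calc ((2 : ℝ) ^ n) ^ 3 ≤ (Real.exp 1 ^ n) ^ 3 := by gcongr
      _ = Real.exp (((3 * n : ℕ) : ℝ) * 1) := by
          rw [Real.exp_nat_mul, ← pow_mul, mul_comm 3 n]
      _ ≤ Real.exp (3 * s / 100) := by
          apply Real.exp_le_exp.mpr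
          push_cast
          linarith
  have h3 : Real.exp (-(k : ℝ) / (216 * (2 * (n : ℝ) + 3))) ≤ Real.exp (-(s / 5)) := by
    apply Real.exp_le_exp.mpr
    rw [neg_div, neg_le_neg_iff, le_div_iff₀ (by positivity)]
    have h4 : 216 * (2 * (n : ℝ) + 3) ≤ 5 * s := by linarith
    have h5 : s / 5 * (216 * (2 * (n : ℝ) + 3)) ≤ s / 5 * (5 * s) :=
      mul_le_mul_of_nonneg_left h4 (by positivity)
    nlinarith
  calc _ ≤ Real.exp (3 * s / 100) * Real.exp (-(s / 5)) :=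
        mul_le_mul h2 h3 (Real.exp_pos _).le (Real.exp_pos _).le
    _ = Real.exp (3 * s / 100 + -(s / 5)) := (Real.exp_add _ _).symm
    _ ≤ _ := by
        apply Real.exp_le_exp.mpr
        linarith

theorem bv (Δ : ℝ) (hΔ : Δ < lam - 1 / 2) :
    ∃ X : ℕ, ∀ x : ℕ, X ≤ x → ∀ D : ℕ, (D : ℝ) ≤ (x : ℝ) ^ Δ →
    ∀ y b : ℕ → ℕ, (∀ d, y d ≤ x) →
    ∑ d ∈ Mod6 D, tau d ^ 2 * ‖NN (y d) d (b d) - (1 / (d : ℂ)) * GG (y d) 0‖ ≤
      (x : ℝ) ^ lam * Real.exp (-(Real.sqrt (Real.log x)) / 2000) := by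
  have hlam := lam_ge
  have hlam1 := lam_le_one
  set Δ' := max Δ 0 with hΔ'
  have hΔ0 : 0 ≤ Δ' := le_max_right _ _
  have hΔ2 : Δ' < lam - 1 / 2 := max_lt hΔ (by linarith)
  have hΔ1 : Δ' ≤ 1 := by linarith
  set γ := (lam - 1 / 2 - Δ') / 2 with hγdef
  have hγ0 : 0 < γ := by rw [hγdef]; linarith
  have hγ : Δ' + 2 * γ ≤ lam - 1 / 2 := by rw [hγdef]; linarith
  set δ := min (1 / 100) γ with hδdef
  have hδ0 : 0 < δ := lt_min (by norm_num) hγ0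
  have hδ1 : δ ≤ 1 / 100 := min_le_left _ _
  have hδ2 : δ ≤ γ := min_le_right _ _
  have hρ1 : 1 < (2 : ℝ) ^ δ := Real.one_lt_rpow (by norm_num) hδ0
  have hρ2 : (2 : ℝ) ^ δ ≤ 81 / 80 := by
    have e1 : (2 : ℝ) ^ δ ≤ (2 : ℝ) ^ (1 / 100 : ℝ) :=
      Real.rpow_le_rpow_of_exponent_le (by norm_num) hδ1
    refine e1.trans ?_
    have e2 : ((2 : ℝ) ^ (1 / 100 : ℝ)) ^ 100 ≤ (81 / 80 : ℝ) ^ 100 := by
      rw [← Real.rpow_natCast, ← Real.rpow_mul (by norm_num)]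
      norm_num
    exact le_of_pow_le_pow_left₀ (by norm_num) (by norm_num) e2
  obtain ⟨C, hC0, hC⟩ := tau_sq_bound _ hρ1
  set K : ℝ := 16 * (40 + 288000 * C) with hK
  have hK0 : 0 < K := by positivity
  have hlog : Tendsto (fun x : ℕ => Real.log x) atTop atTop :=
    Real.tendsto_log_atTop.comp tendsto_natCast_atTop_atTop
  have E1 : ∀ᶠ L : ℝ in atTop, (1000000 : ℝ) ≤ L := eventually_ge_atTop _
  have E2 : ∀ᶠ L : ℝ in atTop, Real.log K ≤ (1 / 4000) * L ^ (1 / 2 : ℝ) :=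
    ev_const _ _ _ (by norm_num) (by norm_num)
  have E3 : ∀ᶠ L : ℝ in atTop, 4 * Real.log L ≤ (1 / 4000) * L ^ (1 / 2 : ℝ) :=
    ev_log _ _ _ (by norm_num) (by norm_num) (by norm_num)
  have E4 : ∀ᶠ L : ℝ in atTop, (1 / 1000) * L ^ (1 / 2 : ℝ) ≤ γ * L ^ (1 : ℝ) :=
    ev_rpow _ _ _ _ (by norm_num) hγ0
  have hall := hlog.eventually (E1.and (E2.and (E3.and E4)))
  obtain ⟨X, hX⟩ := eventually_atTop.mp (hall.and (eventually_ge_atTop 1))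
  refine ⟨X, ?_⟩
  intro x hxX D hDx0 y b hy
  obtain ⟨⟨h1, h2, h3, h4⟩, hx1⟩ := hX x hxX
  have hx0 : (0 : ℝ) < x := by exact_mod_cast hx1
  have hx1' : (1 : ℝ) ≤ x := by exact_mod_cast hx1
  have hDx : (D : ℝ) ≤ (x : ℝ) ^ Δ' :=
    hDx0.trans (Real.rpow_le_rpow_of_exponent_le hx1' (le_max_left _ _))
  rw [← Real.sqrt_eq_rpow] at h2 h3 h4
  rw [Real.rpow_one] at h4
  set ℓ := Real.log x with hℓ
  set s := Real.sqrt ℓ with hs
  have hℓ0 : 0 < ℓ := by linarith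
  have hss : s ^ 2 = ℓ := Real.sq_sqrt hℓ0.le
  have hs0 : 0 ≤ s := Real.sqrt_nonneg _
  have hs1000 : 1000 ≤ s := by
    rw [hs]
    apply Real.le_sqrt_of_sq_le
    linarith
  rcases Nat.eq_zero_or_pos D with hD0 | hD0
  · subst hD0
    have : Mod6 0 = ∅ := by decide
    rw [this, sum_empty]
    positivity
  set k := Nat.log 2 x + 1 with hkdef
  have hk1 : x < 2 ^ k := Nat.lt_pow_succ_log_self (by norm_num) x
  have hk2 : 2 ^ k ≤ 2 * x := by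
    rw [hkdef, pow_succ', mul_le_mul_iff_right₀ (by norm_num)]
    exact Nat.pow_log_le_self 2 (by omega)
  have hyk : ∀ d, y d < 2 ^ k := fun d => lt_of_le_of_lt (hy d) hk1
  have hkℓ : s ^ 2 ≤ k := by
    rw [hss, hℓ]
    have e1 : Real.log x ≤ Real.log (2 ^ k) := by
      apply Real.log_le_log hx0
      exact_mod_cast hk1.le
    rw [Real.log_pow] at e1
    have e2 : Real.log 2 ≤ 1 := by
      have := Real.log_two_lt_d9
      linarith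
    have e3 : (k : ℝ) * Real.log 2 ≤ k * 1 := mul_le_mul_of_nonneg_left e2 (by positivity)
    linarith
  have hmain := tot_bound _ hρ1 hρ2 C hC0 hC k ⌊s / 100⌋₊ D y b hyk
  refine hmain.trans ?_
  have f1 := first_term s hs1000 k hkℓ
  have f2 := second_term s hs0
  have f3 := third_term Δ' γ δ hΔ0 hΔ1 hδ0 hδ2 hγ x D k hx1 hD0 hDx hk2
  have h3k := sqrt3_pow_le x k hk2
  set Y := (x : ℝ) ^ lam with hY
  have hY0 : 0 < Y := Real.rpow_pos_of_pos hx0 _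
  set e := Real.exp (-s / 1000) with he
  have he0 : 0 < e := Real.exp_pos _
  have g1 : 20 * (2 ^ ⌊s / 100⌋₊) ^ 3 * (Real.sqrt 3 ^ k *
        Real.exp (-(k : ℝ) / (216 * (2 * (⌊s / 100⌋₊ : ℕ) + 3)))) ≤ 40 * (Y * e) := by
    calc 20 * (2 ^ ⌊s / 100⌋₊) ^ 3 * (Real.sqrt 3 ^ k *
        Real.exp (-(k : ℝ) / (216 * (2 * (⌊s / 100⌋₊ : ℕ) + 3))))
        = 20 * (Real.sqrt 3 ^ k * (((2 : ℝ) ^ (⌊s / 100⌋₊)) ^ 3 *
          Real.exp (-(k : ℝ) / (216 * (2 * (⌊s / 100⌋₊ : ℕ) + 3))))) := by ring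
      _ ≤ 20 * ((2 * Y) * e) := by
          apply mul_le_mul_of_nonneg_left _ (by norm_num)
          exact mul_le_mul h3k f1 (by positivity) (by positivity)
      _ = _ := by ring
  have g2 : 48000 * C * ((9 / 10) ^ ⌊s / 100⌋₊ * Real.sqrt 3 ^ k) ≤ 192000 * C * (Y * e) := by
    have e1 : (9 / 10 : ℝ) ^ ⌊s / 100⌋₊ * Real.sqrt 3 ^ k ≤ (2 * e) * (2 * Y) :=
      mul_le_mul f2 h3k (by positivity) (by positivity)
    have e2 := mul_le_mul_of_nonneg_left e1 (show 0 ≤ 48000 * C by positivity)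
    calc _ ≤ _ := e2
      _ = _ := by ring
  have g3 : 48000 * C * ((2 * (2 : ℝ) ^ δ) ^ (Nat.log 2 D) * Real.sqrt 2 ^ k) ≤ 96000 * C * (Y * e) := by
    have e0 : (x : ℝ) ^ (-γ) ≤ e := by
      rw [Real.rpow_def_of_pos hx0, he, ← hℓ]
      apply Real.exp_le_exp.mpr
      linarith
    have e1 : (2 * (2 : ℝ) ^ δ) ^ (Nat.log 2 D) * Real.sqrt 2 ^ k ≤ 2 * (Y * e) :=
      f3.trans (mul_le_mul_of_nonneg_left (mul_le_mul_of_nonneg_left e0 hY0.le) (by norm_num))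
    have e2 := mul_le_mul_of_nonneg_left e1 (show 0 ≤ 48000 * C by positivity)
    calc _ ≤ _ := e2
      _ = _ := by ring
  have hlogD : Real.log D ≤ ℓ := by
    have e1 : Real.log D ≤ Real.log ((x : ℝ) ^ Δ') := by
      apply Real.log_le_log _ hDx
      exact_mod_cast hD0
    rw [Real.log_rpow hx0, ← hℓ] at e1
    nlinarith
  have hlogD0 : 0 ≤ Real.log D := Real.log_nonneg (by exact_mod_cast hD0)
  have g4 : (1 + Real.log D) ^ 4 ≤ 16 * ℓ ^ 4 := by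
    have e1 : 1 + Real.log D ≤ 2 * ℓ := by linarith
    calc (1 + Real.log D) ^ 4 ≤ (2 * ℓ) ^ 4 := pow_le_pow_left₀ (by linarith) e1 4
      _ = 16 * ℓ ^ 4 := by ring
  have g5 : 20 * (2 ^ ⌊s / 100⌋₊) ^ 3 * (Real.sqrt 3 ^ k *
        Real.exp (-(k : ℝ) / (216 * (2 * (⌊s / 100⌋₊ : ℕ) + 3)))) +
      48000 * C * ((9 / 10) ^ ⌊s / 100⌋₊ * Real.sqrt 3 ^ k) +
      48000 * C * ((2 * (2 : ℝ) ^ δ) ^ (Nat.log 2 D) * Real.sqrt 2 ^ k) ≤ (40 + 288000 * C) * (Y * e) := by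
    linarith
  have g6 : K * ℓ ^ 4 * e ≤ Real.exp (-s / 2000) := by
    have e1 : K * ℓ ^ 4 = Real.exp (Real.log K + 4 * Real.log ℓ) := by
      rw [Real.exp_add, Real.exp_log hK0, mul_comm 4 (Real.log ℓ)]
      congr 1
      rw [show Real.log ℓ * 4 = ((4 : ℕ) : ℝ) * Real.log ℓ by push_cast; ring, Real.exp_nat_mul,
        Real.exp_log hℓ0]
    rw [e1, he, ← Real.exp_add]
    apply Real.exp_le_exp.mpr
    linarith
  calc (1 + Real.log D) ^ 4 * (20 * (2 ^ ⌊s / 100⌋₊) ^ 3 * (Real.sqrt 3 ^ k *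
        Real.exp (-(k : ℝ) / (216 * (2 * (⌊s / 100⌋₊ : ℕ) + 3)))) +
      48000 * C * ((9 / 10) ^ ⌊s / 100⌋₊ * Real.sqrt 3 ^ k) +
      48000 * C * ((2 * (2 : ℝ) ^ δ) ^ (Nat.log 2 D) * Real.sqrt 2 ^ k))
      ≤ (16 * ℓ ^ 4) * ((40 + 288000 * C) * (Y * e)) := by
        apply mul_le_mul g4 g5 _ (by positivity)
        positivity
    _ = Y * (K * ℓ ^ 4 * e) := by rw [hK]; ring
    _ ≤ Y * Real.exp (-s / 2000) := mul_le_mul_of_nonneg_left g6 hY0.le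

end Pool.Agent.Odious24
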