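import Mathlib
import Pool.Agent.Helper24.Odious2.Bv

set_option autoImplicit false

namespace Pool.Agent.Odious24

open Finset

/-- odious minus evil among the n below y prime to 6 in the class b mod d -/
noncomputable def NZ (y d b : ℕ) : ℤ :=
  ∑ n ∈ (range y).filter (fun n => Nat.Coprime n 6 ∧ n ≡ b [MOD d]), Nceb06bb4.signWeight n

theorem NZ_cast (y d b : ℕ) : ((NZ y d b : ℤ) : ℂ) = NN y d b := by
  unfold NZ NN
  rw [sum_filter]
  push_cast
  apply sum_congr rfl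
  intro n _
  unfold wt
  by_cases h1 : Nat.Coprime n 6
  · by_cases h2 : n ≡ b [MOD d]
    · rw [if_pos ⟨h1, h2⟩, if_pos h2, if_pos h1, signWeight_eq]
      push_cast
      ring
    · simp [h2]
  · simp [h1]

theorem NZ_one (y : ℕ) : ((NZ y 1 0 : ℤ) : ℂ) = GG y 0 := by
  rw [NZ_cast]
  unfold NN GG
  apply sum_congr rfl
  intro n _
  have h : n ≡ 0 [MOD 1] := Nat.modEq_one
  rw [if_pos h, mul_zero, ee_zero, mul_one]

theorem NZ_one_eq (y : ℕ) : NZ y 1 0 = FF y 3 := by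
  have h := NZ_one y
  rw [← FF_three] at h
  exact_mod_cast h

theorem norm_eq (y d b : ℕ) : ‖NN y d b - (1 / (d : ℂ)) * GG y 0‖ =
    |((NZ y d b : ℤ) : ℝ) - ((NZ y 1 0 : ℤ) : ℝ) / d| := by
  rw [← NZ_cast, ← NZ_one]
  have h : ((NZ y d b : ℤ) : ℂ) - 1 / (d : ℂ) * ((NZ y 1 0 : ℤ) : ℂ) =
      ((((NZ y d b : ℤ) : ℝ) - ((NZ y 1 0 : ℤ) : ℝ) / d : ℝ) : ℂ) := by
    push_cast
    ring
  rw [h, Complex.norm_real, Real.norm_eq_abs]

/-- the weighted sum -/
noncomputable def Sw (w : ℕ → ℝ) (x : ℕ) : ℝ :=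
  ∑ n ∈ (range x).filter (fun n => Nat.Coprime n 6), (Nceb06bb4.signWeight n : ℝ) *
    (∑ d ∈ n.divisors, w d) ^ 2

/-- the quadratic form -/
noncomputable def Qw (w : ℕ → ℝ) (R : ℕ) : ℝ :=
  ∑ d ∈ Mod6 R, ∑ e ∈ Mod6 R, w d * w e / (Nat.lcm d e : ℝ)

theorem Mod6_pos {R d : ℕ} (h : d ∈ Mod6 R) : 0 < d := by
  unfold Mod6 at h
  rw [mem_filter, mem_Icc] at h
  omega

theorem Mod6_dvd {R d r : ℕ} (h : d ∈ Mod6 R) (hr : r ∣ d) : r ∈ Mod6 R := by
  unfold Mod6 at h ⊢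
  rw [mem_filter, mem_Icc] at h ⊢
  have h3 := Nat.le_of_dvd (by omega) hr
  have h4 := Nat.pos_of_dvd_of_pos hr (by omega)
  exact ⟨by omega, Nat.Coprime.coprime_dvd_left hr h.2⟩

theorem inner_eq (w : ℕ → ℝ) (R : ℕ) (hw : ∀ d, w d ≠ 0 → d ≤ R ∧ Squarefree d ∧ Nat.Coprime d 6)
    (n : ℕ) (hn : 0 < n) : ∑ d ∈ n.divisors, w d = ∑ d ∈ Mod6 R, if d ∣ n then w d else 0 := by
  rw [← sum_filter]
  have h1 : ∑ d ∈ n.divisors, w d = ∑ d ∈ n.divisors.filter (fun d => d ∈ Mod6 R), w d := by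
    rw [sum_filter]
    apply sum_congr rfl
    intro d hd
    by_cases h : d ∈ Mod6 R
    · rw [if_pos h]
    · rw [if_neg h]
      by_contra h0
      obtain ⟨h1, h2, h3⟩ := hw d h0
      apply h
      unfold Mod6
      rw [mem_filter, mem_Icc]
      exact ⟨⟨Nat.pos_of_mem_divisors hd, h1⟩, h3⟩
  rw [h1]
  apply sum_congr _ (fun _ _ => rfl)
  ext d
  rw [mem_filter, mem_filter, Nat.mem_divisors]
  constructor
  · rintro ⟨⟨h1, _⟩, h2⟩
    exact ⟨h2, h1⟩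
  · rintro ⟨h1, h2⟩
    exact ⟨⟨h2, hn.ne'⟩, h1⟩

theorem Sw_eq (w : ℕ → ℝ) (R : ℕ) (hw : ∀ d, w d ≠ 0 → d ≤ R ∧ Squarefree d ∧ Nat.Coprime d 6)
    (x : ℕ) : Sw w x = ∑ d ∈ Mod6 R, ∑ e ∈ Mod6 R, w d * w e * ((NZ x (Nat.lcm d e) 0 : ℤ) : ℝ) := by
  unfold Sw
  have h1 : ∀ n ∈ (range x).filter (fun n => Nat.Coprime n 6), (Nceb06bb4.signWeight n : ℝ) *
      (∑ d ∈ n.divisors, w d) ^ 2 = ∑ d ∈ Mod6 R, ∑ e ∈ Mod6 R,
        w d * w e * (if Nat.lcm d e ∣ n then (Nceb06bb4.signWeight n : ℝ) else 0) := by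
    intro n hn
    rw [mem_filter] at hn
    have hn0 : 0 < n := by
      rcases Nat.eq_zero_or_pos n with h | h
      · subst h
        exact absurd hn.2 (by decide)
      · exact h
    rw [inner_eq w R hw n hn0, sq, sum_mul_sum, mul_sum]
    apply sum_congr rfl
    intro d _
    rw [mul_sum]
    apply sum_congr rfl
    intro e _
    by_cases h1 : d ∣ n
    · by_cases h2 : e ∣ n
      · rw [if_pos h1, if_pos h2, if_pos (Nat.lcm_dvd h1 h2)]
        ring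
      · have h3 : ¬ Nat.lcm d e ∣ n := fun h => h2 ((Nat.dvd_lcm_right d e).trans h)
        rw [if_neg h2, if_neg h3]
        ring
    · have h3 : ¬ Nat.lcm d e ∣ n := fun h => h1 ((Nat.dvd_lcm_left d e).trans h)
      rw [if_neg h1, if_neg h3]
      ring
  rw [sum_congr rfl h1, sum_comm]
  apply sum_congr rfl
  intro d _
  rw [sum_comm]
  apply sum_congr rfl
  intro e _
  rw [← mul_sum]
  congr 1
  unfold NZ
  rw [filter_and, ← sum_filter]
  push_cast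
  apply sum_congr _ (fun _ _ => rfl)
  ext n
  simp only [mem_filter, mem_inter, Nat.modEq_zero_iff_dvd]
  tauto

theorem pair_le (R : ℕ) (g : ℕ → ℝ) (hg : ∀ d, 0 ≤ g d) :
    ∑ d ∈ Mod6 R, ∑ e ∈ Mod6 R, g (Nat.lcm d e) ≤ ∑ d ∈ Mod6 (R ^ 2), tau d ^ 2 * g d := by
  rw [← sum_product' (Mod6 R) (Mod6 R) (fun d e => g (Nat.lcm d e))]
  have hmaps : ∀ p ∈ Mod6 R ×ˢ Mod6 R, Nat.lcm p.1 p.2 ∈ Mod6 (R ^ 2) := by
    intro p hp
    rw [mem_product] at hp
    have h1 := Mod6_pos hp.1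
    have h2 := Mod6_pos hp.2
    obtain ⟨hp1, hp2⟩ := hp
    unfold Mod6 at hp1 hp2 ⊢
    rw [mem_filter, mem_Icc] at hp1 hp2 ⊢
    refine ⟨⟨Nat.lcm_pos h1 h2, ?_⟩, ?_⟩
    · have h3 : Nat.lcm p.1 p.2 ≤ p.1 * p.2 := Nat.le_of_dvd (Nat.mul_pos h1 h2) (Nat.lcm_dvd_mul _ _)
      have h4 : p.1 * p.2 ≤ R * R := Nat.mul_le_mul hp1.1.2 hp2.1.2
      rw [sq]; omega
    · exact Nat.Coprime.coprime_dvd_left (Nat.lcm_dvd_mul _ _) (Nat.Coprime.mul_left hp1.2 hp2.2)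
  rw [← sum_fiberwise_of_maps_to hmaps]
  apply sum_le_sum
  intro d hd
  have h1 : ∀ p ∈ (Mod6 R ×ˢ Mod6 R).filter (fun p => Nat.lcm p.1 p.2 = d), g (Nat.lcm p.1 p.2) = g d := by
    intro p hp
    rw [mem_filter] at hp
    rw [hp.2]
  rw [sum_congr rfl h1, sum_const, nsmul_eq_mul]
  apply mul_le_mul_of_nonneg_right _ (hg d)
  have h2 : ((Mod6 R ×ˢ Mod6 R).filter (fun p => Nat.lcm p.1 p.2 = d)).card ≤
      (d.divisors ×ˢ d.divisors).card := by
    apply card_le_card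
    intro p hp
    rw [mem_filter] at hp
    rw [mem_product, Nat.mem_divisors, Nat.mem_divisors]
    have hd0 := (Mod6_pos hd).ne'
    refine ⟨⟨?_, hd0⟩, ⟨?_, hd0⟩⟩
    · rw [← hp.2]; exact Nat.dvd_lcm_left _ _
    · rw [← hp.2]; exact Nat.dvd_lcm_right _ _
  rw [card_product] at h2
  unfold tau
  rw [sq]
  exact_mod_cast h2

theorem Sw_sub (w : ℕ → ℝ) (R : ℕ) (hw : ∀ d, w d ≠ 0 → d ≤ R ∧ Squarefree d ∧ Nat.Coprime d 6)
    (hw1 : ∀ d, |w d| ≤ 1) (x : ℕ) :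
    |Sw w x - ((NZ x 1 0 : ℤ) : ℝ) * Qw w R| ≤
      ∑ d ∈ Mod6 (R ^ 2), tau d ^ 2 * |((NZ x d 0 : ℤ) : ℝ) - ((NZ x 1 0 : ℤ) : ℝ) / d| := by
  have h1 : Sw w x - ((NZ x 1 0 : ℤ) : ℝ) * Qw w R = ∑ d ∈ Mod6 R, ∑ e ∈ Mod6 R,
      w d * w e * (((NZ x (Nat.lcm d e) 0 : ℤ) : ℝ) - ((NZ x 1 0 : ℤ) : ℝ) / (Nat.lcm d e : ℕ)) := by
    rw [Sw_eq w R hw x]
    unfold Qw
    rw [mul_sum, ← sum_sub_distrib]
    apply sum_congr rfl
    intro d _
    rw [mul_sum, ← sum_sub_distrib]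
    apply sum_congr rfl
    intro e _
    ring
  rw [h1]
  have h2 : |∑ d ∈ Mod6 R, ∑ e ∈ Mod6 R,
      w d * w e * (((NZ x (Nat.lcm d e) 0 : ℤ) : ℝ) - ((NZ x 1 0 : ℤ) : ℝ) / (Nat.lcm d e : ℕ))| ≤
      ∑ d ∈ Mod6 R, ∑ e ∈ Mod6 R,
        |((NZ x (Nat.lcm d e) 0 : ℤ) : ℝ) - ((NZ x 1 0 : ℤ) : ℝ) / (Nat.lcm d e : ℕ)| := by
    refine (abs_sum_le_sum_abs _ _).trans (sum_le_sum fun d _ => ?_)
    refine (abs_sum_le_sum_abs _ _).trans (sum_le_sum fun e _ => ?_)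
    rw [abs_mul, abs_mul]
    have e1 : |w d| * |w e| ≤ 1 := mul_le_one₀ (hw1 d) (abs_nonneg _) (hw1 e)
    exact mul_le_of_le_one_left (abs_nonneg _) e1
  exact h2.trans (pair_le R (fun d => |((NZ x d 0 : ℤ) : ℝ) - ((NZ x 1 0 : ℤ) : ℝ) / (d : ℕ)|)
    (fun d => abs_nonneg _))

/-! ### the quadratic form from below -/

/-- squarefree numbers prime to 6 -/
def Sqf (R : ℕ) : Finset ℕ := (Mod6 R).filter Squarefree

theorem phi_sq (b : ℕ) (hb : Squarefree b) (h6 : Nat.Coprime b 6) : b ≤ (Nat.totient b) ^ 2 := by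
  rw [Nat.totient_eq_div_primeFactors_mul, Nat.prod_primeFactors_of_squarefree hb]
  rw [Nat.div_self (Nat.pos_of_ne_zero hb.ne_zero), one_mul]
  conv_lhs => rw [← Nat.prod_primeFactors_of_squarefree hb]
  rw [← prod_pow]
  apply prod_le_prod'
  intro p hp
  have hpp := Nat.prime_of_mem_primeFactors hp
  have hpd := Nat.dvd_of_mem_primeFactors hp
  have hp2 : p ≠ 2 := by
    rintro rfl
    have : Nat.Coprime 2 6 := Nat.Coprime.coprime_dvd_left hpd h6
    exact absurd this (by decide)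
  have h3 : 3 ≤ p := by
    have := hpp.two_le
    omega
  obtain ⟨q, rfl⟩ : ∃ q, p = q + 3 := ⟨p - 3, by omega⟩
  rw [show q + 3 - 1 = q + 2 by omega]
  nlinarith

theorem sum_three_half (n : ℕ) (hn : 1 ≤ n) :
    ∑ b ∈ Icc 1 n, 1 / ((b : ℝ) * Real.sqrt b) ≤ 3 - 2 / Real.sqrt n := by
  induction n, hn using Nat.le_induction with
  | base => norm_num
  | succ n hn ih =>
    rw [sum_Icc_succ_top (by omega)]
    have hn0 : (0 : ℝ) < n := by exact_mod_cast hn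
    set u := Real.sqrt n with hu
    set v := Real.sqrt ((n + 1 : ℕ) : ℝ) with hv
    have hu0 : 0 < u := Real.sqrt_pos.mpr hn0
    have hv0 : 0 < v := Real.sqrt_pos.mpr (by positivity)
    have hu2 : u ^ 2 = n := Real.sq_sqrt hn0.le
    have hv2 : v ^ 2 = ((n + 1 : ℕ) : ℝ) := Real.sq_sqrt (by positivity)
    have huv : u ≤ v := Real.sqrt_le_sqrt (by push_cast; linarith)
    have h1 : 1 / (((n + 1 : ℕ) : ℝ) * v) ≤ 2 / u - 2 / v := by
      have hv3 : v ^ 2 = u ^ 2 + 1 := by rw [hv2, hu2]; push_cast; ring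
      rw [← hv2, div_sub_div _ _ hu0.ne' hv0.ne', div_le_div_iff₀ (by positivity) (by positivity)]
      have e1 : (v - u) * (v + u) = 1 := by nlinarith
      have e2 : v + u ≤ 2 * v := by linarith
      have e3 : 0 ≤ v - u := by linarith
      have e4 : 1 ≤ (v - u) * (2 * v) := by nlinarith
      have e5 : u * v ≤ v ^ 2 := by nlinarith
      calc 1 * (u * v) ≤ v ^ 2 := by linarith
        _ = v ^ 2 * 1 := by ring
        _ ≤ v ^ 2 * ((v - u) * (2 * v)) := mul_le_mul_of_nonneg_left e4 (by positivity)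
        _ = (2 * v - u * 2) * (v ^ 2 * v) := by ring
    linarith

theorem sum_phi_conv (R : ℕ) : ∑ b ∈ Sqf R, 1 / ((b : ℝ) * (Nat.totient b : ℝ)) ≤ 3 := by
  rcases Nat.eq_zero_or_pos R with h | h
  · subst h
    have : Sqf 0 = ∅ := by decide
    rw [this, sum_empty]; norm_num
  have h1 : ∑ b ∈ Sqf R, 1 / ((b : ℝ) * (Nat.totient b : ℝ)) ≤ ∑ b ∈ Sqf R, 1 / ((b : ℝ) * Real.sqrt b) := by
    apply sum_le_sum
    intro b hb
    unfold Sqf Mod6 at hb
    rw [mem_filter, mem_filter, mem_Icc] at hb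
    have hb0 : (0 : ℝ) < b := by exact_mod_cast hb.1.1.1
    have h2 := phi_sq b hb.2 hb.1.2
    have h3 : Real.sqrt b ≤ (Nat.totient b : ℝ) := by
      rw [Real.sqrt_le_left (by positivity)]
      exact_mod_cast h2
    have h4 : 0 < Real.sqrt b := Real.sqrt_pos.mpr hb0
    apply one_div_le_one_div_of_le (by positivity)
    exact mul_le_mul_of_nonneg_left h3 hb0.le
  have h2 : ∑ b ∈ Sqf R, 1 / ((b : ℝ) * Real.sqrt b) ≤ ∑ b ∈ Icc 1 R, 1 / ((b : ℝ) * Real.sqrt b) := by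
    apply sum_le_sum_of_subset_of_nonneg
    · intro b hb
      unfold Sqf Mod6 at hb
      rw [mem_filter, mem_filter] at hb
      exact hb.1.1
    · intro b _ _
      positivity
  have h3 := sum_three_half R h
  have h4 : 0 ≤ 2 / Real.sqrt R := by positivity
  linarith

theorem one_div_phi (d : ℕ) (hd : Squarefree d) :
    1 / (Nat.totient d : ℝ) = ∑ b ∈ d.divisors, 1 / ((d : ℝ) * (Nat.totient b : ℝ)) := by
  have hd0 : (d : ℝ) ≠ 0 := by exact_mod_cast hd.ne_zero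
  have hphi : (Nat.totient d : ℝ) ≠ 0 := by
    exact_mod_cast (Nat.totient_pos.mpr (Nat.pos_of_ne_zero hd.ne_zero)).ne'
  -- sum of phi over complementary divisors
  have h1 : ∀ b ∈ d.divisors, 1 / ((d : ℝ) * (Nat.totient b : ℝ)) =
      (1 / ((d : ℝ) * (Nat.totient d : ℝ))) * (Nat.totient (d / b) : ℝ) := by
    intro b hb
    have hbd := Nat.dvd_of_mem_divisors hb
    have hb0 := Nat.pos_of_mem_divisors hb
    have e1 : b * (d / b) = d := Nat.mul_div_cancel' hbd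
    have hcop : Nat.Coprime b (d / b) := by
      rw [← e1] at hd
      exact Nat.coprime_of_squarefree_mul hd
    have e2 : Nat.totient d = Nat.totient b * Nat.totient (d / b) := by
      conv_lhs => rw [← e1]
      exact Nat.totient_mul hcop
    have hq : 0 < d / b := Nat.div_pos (Nat.le_of_dvd (Nat.pos_of_ne_zero hd.ne_zero) hbd) hb0
    have f1 : (Nat.totient b : ℝ) ≠ 0 := by exact_mod_cast (Nat.totient_pos.mpr hb0).ne'
    have f2 : (Nat.totient (d / b) : ℝ) ≠ 0 := by exact_mod_cast (Nat.totient_pos.mpr hq).ne'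
    rw [e2]
    push_cast
    field_simp
  rw [sum_congr rfl h1, ← mul_sum]
  have h2 : ∑ b ∈ d.divisors, (Nat.totient (d / b) : ℝ) = d := by
    have e1 : ∑ b ∈ d.divisors, (Nat.totient (d / b)) = ∑ b ∈ d.divisors, Nat.totient b :=
      Nat.sum_div_divisors d Nat.totient
    have e2 := Nat.sum_totient d
    rw [← e1] at e2
    exact_mod_cast e2
  rw [h2]
  field_simp

theorem sum_phi (R : ℕ) : ∑ d ∈ Sqf R, 1 / (Nat.totient d : ℝ) ≤ 3 * (1 + Real.log R) := by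
  have h1 : ∑ d ∈ Sqf R, 1 / (Nat.totient d : ℝ) =
      ∑ d ∈ Sqf R, ∑ b ∈ d.divisors, 1 / ((d : ℝ) * (Nat.totient b : ℝ)) := by
    apply sum_congr rfl
    intro d hd
    unfold Sqf at hd
    exact one_div_phi d (mem_filter.mp hd).2
  rw [h1]
  have h2 := sum_div_le (Sqf R) (Icc 1 R)
    (fun d hd => by unfold Sqf at hd; exact Mod6_pos (mem_filter.mp hd).1)
    (fun d hd r hr => by
      unfold Sqf at hd ⊢
      rw [mem_filter] at hd ⊢
      exact ⟨Mod6_dvd hd.1 hr, hd.2.squarefree_of_dvd hr⟩)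
    (fun d hd => by
      unfold Sqf Mod6 at hd
      rw [mem_filter, mem_filter] at hd
      exact hd.1.1)
    (fun d b => 1 / ((d : ℝ) * (Nat.totient b : ℝ)))
    (fun b e => (1 / ((b : ℝ) * (Nat.totient b : ℝ))) * (1 / (e : ℝ)))
    (fun r e => by positivity) (fun r e hr he => by
      push_cast
      rw [one_div_mul_one_div]
      apply le_of_eq
      congr 1
      ring)
  refine h2.trans ?_
  rw [← sum_mul_sum]
  have h3 := sum_phi_conv R
  have h4 := harm R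
  have h5 := harm_nonneg R
  calc _ ≤ 3 * ∑ e ∈ Icc 1 R, 1 / (e : ℝ) := mul_le_mul_of_nonneg_right h3 h5
    _ ≤ _ := mul_le_mul_of_nonneg_left h4 (by norm_num)

/-- the diagonal variables -/
noncomputable def yv (w : ℕ → ℝ) (R δ : ℕ) : ℝ := ∑ d ∈ Mod6 R, if δ ∣ d then w d / d else 0

theorem Qw_diag (w : ℕ → ℝ) (R : ℕ) :
    Qw w R = ∑ δ ∈ Mod6 R, (Nat.totient δ : ℝ) * (yv w R δ) ^ 2 := by
  unfold Qw
  have h1 : ∀ d ∈ Mod6 R, ∀ e ∈ Mod6 R, w d * w e / (Nat.lcm d e : ℝ) =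
      ∑ δ ∈ Mod6 R, (Nat.totient δ : ℝ) * ((if δ ∣ d then w d / d else 0) *
        (if δ ∣ e then w e / e else 0)) := by
    intro d hd e he
    have hd0 : (d : ℝ) ≠ 0 := by exact_mod_cast (Mod6_pos hd).ne'
    have he0 : (e : ℝ) ≠ 0 := by exact_mod_cast (Mod6_pos he).ne'
    have hl0 : ((Nat.lcm d e : ℕ) : ℝ) ≠ 0 := by
      exact_mod_cast (Nat.lcm_pos (Mod6_pos hd) (Mod6_pos he)).ne'
    have e1 : ((Nat.gcd d e : ℕ) : ℝ) * (Nat.lcm d e : ℕ) = d * e := by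
      exact_mod_cast Nat.gcd_mul_lcm d e
    have e2 : ((Nat.gcd d e : ℕ) : ℝ) = ∑ δ ∈ (Nat.gcd d e).divisors, (Nat.totient δ : ℝ) := by
      exact_mod_cast (Nat.sum_totient (Nat.gcd d e)).symm
    have e3 : (Nat.gcd d e).divisors = (Mod6 R).filter (fun δ => δ ∣ d ∧ δ ∣ e) := by
      ext δ
      rw [Nat.mem_divisors, mem_filter]
      constructor
      · rintro ⟨h, _⟩
        have f1 := h.trans (Nat.gcd_dvd_left d e)
        have f2 := h.trans (Nat.gcd_dvd_right d e)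
        exact ⟨Mod6_dvd hd f1, f1, f2⟩
      · rintro ⟨_, f1, f2⟩
        exact ⟨Nat.dvd_gcd f1 f2, (Nat.gcd_pos_of_pos_left _ (Mod6_pos hd)).ne'⟩
    rw [e3, sum_filter] at e2
    have e4 : w d * w e / (Nat.lcm d e : ℝ) = ((Nat.gcd d e : ℕ) : ℝ) * ((w d / d) * (w e / e)) := by
      field_simp
      rw [mul_comm] at e1
      linear_combination (-(w d * w e)) * e1
    rw [e4, e2, sum_mul]
    apply sum_congr rfl
    intro δ _
    by_cases h1 : δ ∣ d
    · by_cases h2 : δ ∣ e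
      · simp [h1, h2]
      · simp [h2]
    · simp [h1]
  rw [sum_congr rfl (fun d hd => sum_congr rfl (h1 d hd))]
  have h2 : ∀ d ∈ Mod6 R, ∑ e ∈ Mod6 R, ∑ δ ∈ Mod6 R, (Nat.totient δ : ℝ) *
      ((if δ ∣ d then w d / d else 0) * (if δ ∣ e then w e / e else 0)) =
      ∑ δ ∈ Mod6 R, (Nat.totient δ : ℝ) * ((if δ ∣ d then w d / d else 0) * yv w R δ) := by
    intro d _
    rw [sum_comm]
    apply sum_congr rfl
    intro δ _
    unfold yv
    rw [mul_sum, mul_sum]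
  rw [sum_congr rfl h2, sum_comm]
  apply sum_congr rfl
  intro δ _
  rw [← mul_sum, ← sum_mul]
  congr 1
  unfold yv
  ring

theorem mobius_inv (w : ℕ → ℝ) (R : ℕ) (hR : 1 ≤ R)
    (hw : ∀ d, w d ≠ 0 → d ≤ R ∧ Squarefree d ∧ Nat.Coprime d 6) :
    ∑ δ ∈ Sqf R, ((ArithmeticFunction.moebius δ : ℤ) : ℝ) * yv w R δ = w 1 := by
  unfold yv
  simp_rw [mul_sum]
  rw [sum_comm]
  have h1 : ∀ d ∈ Mod6 R, ∑ δ ∈ Sqf R, ((ArithmeticFunction.moebius δ : ℤ) : ℝ) *
      (if δ ∣ d then w d / d else 0) = if d = 1 then w 1 else 0 := by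
    intro d hd
    by_cases h0 : w d = 0
    · have : ∑ δ ∈ Sqf R, ((ArithmeticFunction.moebius δ : ℤ) : ℝ) *
          (if δ ∣ d then w d / d else 0) = 0 := by
        apply sum_eq_zero
        intro δ _
        rw [h0]
        simp
      rw [this]
      by_cases hd1 : d = 1
      · subst hd1
        simp [h0]
      · rw [if_neg hd1]
    · obtain ⟨a1, a2, a3⟩ := hw d h0
      have e1 : ∑ δ ∈ Sqf R, ((ArithmeticFunction.moebius δ : ℤ) : ℝ) *
          (if δ ∣ d then w d / d else 0) =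
          (∑ δ ∈ d.divisors, ((ArithmeticFunction.moebius δ : ℤ) : ℝ)) * (w d / d) := by
        rw [sum_mul]
        have e2 : d.divisors = (Sqf R).filter (fun δ => δ ∣ d) := by
          ext δ
          rw [Nat.mem_divisors, mem_filter]
          constructor
          · rintro ⟨h, _⟩
            refine ⟨?_, h⟩
            unfold Sqf
            rw [mem_filter]
            exact ⟨Mod6_dvd hd h, a2.squarefree_of_dvd h⟩
          · rintro ⟨_, h⟩
            exact ⟨h, (Mod6_pos hd).ne'⟩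
        rw [e2, sum_filter]
        apply sum_congr rfl
        intro δ _
        by_cases h : δ ∣ d
        · simp [h]
        · simp [h]
      rw [e1]
      have e3 : ∑ δ ∈ d.divisors, (ArithmeticFunction.moebius δ : ℤ) = if d = 1 then 1 else 0 := by
        have e4 : ((ArithmeticFunction.moebius * (ArithmeticFunction.zeta : ArithmeticFunction ℤ)) :
            ArithmeticFunction ℤ) d = (1 : ArithmeticFunction ℤ) d := by
          rw [ArithmeticFunction.moebius_mul_coe_zeta]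
        rw [ArithmeticFunction.coe_mul_zeta_apply] at e4
        rw [e4, ArithmeticFunction.one_apply]
      have e5 : ∑ δ ∈ d.divisors, ((ArithmeticFunction.moebius δ : ℤ) : ℝ) = if d = 1 then 1 else 0 := by
        have e6 : ((∑ δ ∈ d.divisors, (ArithmeticFunction.moebius δ : ℤ) : ℤ) : ℝ) =
            ((if d = 1 then 1 else 0 : ℤ) : ℝ) := by rw [e3]
        rw [Int.cast_sum] at e6
        rw [e6]
        split_ifs <;> simp
      rw [e5]
      by_cases hd1 : d = 1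
      · subst hd1
        simp
      · simp [hd1]
  rw [sum_congr rfl h1, sum_ite_eq', if_pos]
  unfold Mod6
  rw [mem_filter, mem_Icc]
  exact ⟨⟨le_refl _, hR⟩, by decide⟩

/-- the quadratic form is at least the reciprocal of the logarithm -/
theorem Qw_lower (w : ℕ → ℝ) (R : ℕ) (hR : 1 ≤ R)
    (hw : ∀ d, w d ≠ 0 → d ≤ R ∧ Squarefree d ∧ Nat.Coprime d 6) (hw1 : w 1 = 1) :
    1 ≤ 3 * (1 + Real.log R) * Qw w R := by
  have h1 := mobius_inv w R hR hw
  rw [hw1] at h1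
  have h2 : (∑ δ ∈ Sqf R, ((ArithmeticFunction.moebius δ : ℤ) : ℝ) * yv w R δ) ^ 2 ≤
      (∑ δ ∈ Sqf R, 1 / (Nat.totient δ : ℝ)) * ∑ δ ∈ Sqf R, (Nat.totient δ : ℝ) * (yv w R δ) ^ 2 := by
    have h3 := sum_mul_sq_le_sq_mul_sq (Sqf R)
      (fun δ => ((ArithmeticFunction.moebius δ : ℤ) : ℝ) / Real.sqrt (Nat.totient δ))
      (fun δ => Real.sqrt (Nat.totient δ) * yv w R δ)
    have hpos : ∀ δ ∈ Sqf R, (0 : ℝ) < (Nat.totient δ : ℝ) := by
      intro δ hδ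
      unfold Sqf at hδ
      exact_mod_cast Nat.totient_pos.mpr (Mod6_pos (mem_filter.mp hδ).1)
    have e1 : ∑ δ ∈ Sqf R, (((ArithmeticFunction.moebius δ : ℤ) : ℝ) / Real.sqrt (Nat.totient δ)) *
        (Real.sqrt (Nat.totient δ) * yv w R δ) =
        ∑ δ ∈ Sqf R, ((ArithmeticFunction.moebius δ : ℤ) : ℝ) * yv w R δ := by
      apply sum_congr rfl
      intro δ hδ
      have := (Real.sqrt_pos.mpr (hpos δ hδ)).ne'
      field_simp
    have e2 : ∑ δ ∈ Sqf R, (((ArithmeticFunction.moebius δ : ℤ) : ℝ) / Real.sqrt (Nat.totient δ)) ^ 2 ≤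
        ∑ δ ∈ Sqf R, 1 / (Nat.totient δ : ℝ) := by
      apply sum_le_sum
      intro δ hδ
      rw [div_pow, Real.sq_sqrt (hpos δ hδ).le]
      apply div_le_div_of_nonneg_right _ (hpos δ hδ).le
      have f1 : |((ArithmeticFunction.moebius δ : ℤ) : ℝ)| ≤ 1 := by
        have := ArithmeticFunction.abs_moebius_le_one (n := δ)
        exact_mod_cast this
      rw [← sq_abs]
      nlinarith [abs_nonneg ((ArithmeticFunction.moebius δ : ℤ) : ℝ)]
    have e3 : ∑ δ ∈ Sqf R, (Real.sqrt (Nat.totient δ) * yv w R δ) ^ 2 =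
        ∑ δ ∈ Sqf R, (Nat.totient δ : ℝ) * (yv w R δ) ^ 2 := by
      apply sum_congr rfl
      intro δ hδ
      rw [mul_pow, Real.sq_sqrt (hpos δ hδ).le]
    rw [e1, e3] at h3
    refine h3.trans (mul_le_mul_of_nonneg_right e2 ?_)
    exact sum_nonneg (fun δ hδ => by
      have := (hpos δ hδ).le
      positivity)
  rw [h1] at h2
  have h3 : ∑ δ ∈ Sqf R, (Nat.totient δ : ℝ) * (yv w R δ) ^ 2 ≤ Qw w R := by
    rw [Qw_diag]
    apply sum_le_sum_of_subset_of_nonneg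
    · unfold Sqf
      exact filter_subset _ _
    · intro δ _ _
      positivity
  have h4 := sum_phi R
  have h5 : 0 ≤ ∑ δ ∈ Sqf R, (Nat.totient δ : ℝ) * (yv w R δ) ^ 2 := sum_nonneg (fun δ _ => by positivity)
  have h6 : 0 ≤ 3 * (1 + Real.log R) := by
    have := Real.log_nonneg (show (1 : ℝ) ≤ R by exact_mod_cast hR)
    linarith
  calc (1 : ℝ) = 1 ^ 2 := by norm_num
    _ ≤ _ := h2
    _ ≤ 3 * (1 + Real.log R) * ∑ δ ∈ Sqf R, (Nat.totient δ : ℝ) * (yv w R δ) ^ 2 :=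
        mul_le_mul_of_nonneg_right h4 h5
    _ ≤ _ := mul_le_mul_of_nonneg_left h3 h6

end Pool.Agent.Odious24
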