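import Mathlib
import Pool.Agent.Helper24.Odious2.Sel

set_option autoImplicit false

namespace Pool.Agent.Odious24

open Finset Filter

theorem final2 (Δ : ℝ) (hΔ : Δ < Real.log 3 / Real.log 4 - 1 / 2) :
    ∃ X : ℕ, ∀ x : ℕ, X ≤ x →
      ((x : ℝ) ^ (Real.log 3 / Real.log 4) / 40 ≤ ((NZ x 1 0 : ℤ) : ℝ) ∧
        ((NZ x 1 0 : ℤ) : ℝ) ≤ 3 * (x : ℝ) ^ (Real.log 3 / Real.log 4)) ∧
      (∀ D : ℕ, (D : ℝ) ≤ (x : ℝ) ^ Δ → ∀ y b : ℕ → ℕ, (∀ d, y d ≤ x) →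
        ∑ d ∈ Mod6 D, tau d ^ 2 * |((NZ (y d) d (b d) : ℤ) : ℝ) - ((NZ (y d) 1 0 : ℤ) : ℝ) / d| ≤
          (x : ℝ) ^ (Real.log 3 / Real.log 4) * Real.exp (-(Real.sqrt (Real.log x)) / 2000)) ∧
      (∀ R : ℕ, (R : ℝ) ^ 2 ≤ (x : ℝ) ^ Δ → ∀ w : ℕ → ℝ, w 1 = 1 → (∀ d, |w d| ≤ 1) →
        (∀ d, w d ≠ 0 → d ≤ R ∧ Squarefree d ∧ Nat.Coprime d 6) →
        |Sw w x - ((NZ x 1 0 : ℤ) : ℝ) * Qw w R| ≤
          (x : ℝ) ^ (Real.log 3 / Real.log 4) * Real.exp (-(Real.sqrt (Real.log x)) / 2000) ∧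
        1 / Real.log x ≤ Qw w R ∧
        (x : ℝ) ^ (Real.log 3 / Real.log 4) / (50 * Real.log x) ≤ Sw w x) := by
  have hlamdef : Real.log 3 / Real.log 4 = lam := rfl
  rw [hlamdef] at hΔ ⊢
  obtain ⟨X1, hX1⟩ := bv Δ hΔ
  have hlog : Tendsto (fun x : ℕ => Real.log x) atTop atTop :=
    Real.tendsto_log_atTop.comp tendsto_natCast_atTop_atTop
  have E1 : ∀ᶠ L : ℝ in atTop, (12 : ℝ) ≤ L := eventually_ge_atTop _
  have E2 : ∀ᶠ L : ℝ in atTop, Real.log 200 ≤ (1 / 4000) * L ^ (1 / 2 : ℝ) :=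
    ev_const _ _ _ (by norm_num) (by norm_num)
  have E3 : ∀ᶠ L : ℝ in atTop, 1 * Real.log L ≤ (1 / 4000) * L ^ (1 / 2 : ℝ) :=
    ev_log _ _ _ (by norm_num) (by norm_num) (by norm_num)
  have hall := hlog.eventually (E1.and (E2.and E3))
  obtain ⟨X2, hX2⟩ := eventually_atTop.mp (hall.and (eventually_ge_atTop 10))
  refine ⟨max X1 X2, ?_⟩
  intro x hx
  have hbv := hX1 x ((le_max_left _ _).trans hx)
  obtain ⟨⟨h1, h2, h3⟩, hx10⟩ := hX2 x ((le_max_right _ _).trans hx)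
  rw [← Real.sqrt_eq_rpow] at h2 h3
  have partA : ∀ D : ℕ, (D : ℝ) ≤ (x : ℝ) ^ Δ → ∀ y b : ℕ → ℕ, (∀ d, y d ≤ x) →
        ∑ d ∈ Mod6 D, tau d ^ 2 * |((NZ (y d) d (b d) : ℤ) : ℝ) - ((NZ (y d) 1 0 : ℤ) : ℝ) / d| ≤
          (x : ℝ) ^ lam * Real.exp (-(Real.sqrt (Real.log x)) / 2000) := by
    intro D hD y b hy
    have h4 := hbv D hD y b hy
    simp only [norm_eq] at h4
    exact h4
  refine ⟨⟨?_, ?_⟩, partA, ?_⟩
  · rw [NZ_one_eq]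
    have := FF_three_lower x hx10
    linarith
  · rw [NZ_one_eq]
    exact FF_three_upper x (by omega)
  intro R hR w hw1 hwb hws
  have hx0 : (0 : ℝ) < x := by
    have : 0 < x := by omega
    exact_mod_cast this
  have hx1 : (1 : ℝ) ≤ x := by
    have : 1 ≤ x := by omega
    exact_mod_cast this
  set ℓ := Real.log x with hℓ
  have hℓ0 : 0 < ℓ := by linarith
  have hR1 : 1 ≤ R := (hws 1 (by rw [hw1]; norm_num)).1
  have hR1' : (1 : ℝ) ≤ R := by exact_mod_cast hR1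
  have hlam1 := lam_le_one
  have hD2 : ((R ^ 2 : ℕ) : ℝ) ≤ (x : ℝ) ^ Δ := by push_cast; exact hR
  have g1 := partA (R ^ 2) hD2 (fun _ => x) (fun _ => 0) (fun _ => le_refl _)
  have g2 := Sw_sub w R hws hwb x
  have g3 := g2.trans g1
  have hlogR : 2 * Real.log R ≤ 1 / 2 * ℓ := by
    have e1 : Real.log ((R : ℝ) ^ 2) ≤ Real.log ((x : ℝ) ^ Δ) :=
      Real.log_le_log (by positivity) hR
    rw [Real.log_pow, Real.log_rpow hx0, ← hℓ] at e1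
    push_cast at e1
    nlinarith
  have g4 := Qw_lower w R hR1 hws hw1
  have hlogR0 : 0 ≤ Real.log R := Real.log_nonneg hR1'
  have g5 : 1 / ℓ ≤ Qw w R := by
    have e1 : 0 < 3 * (1 + Real.log R) := by linarith
    have e2 : 1 / (3 * (1 + Real.log R)) ≤ Qw w R := by
      rw [div_le_iff₀ e1]
      linarith
    refine le_trans ?_ e2
    apply one_div_le_one_div_of_le e1
    linarith
  refine ⟨g3, g5, ?_⟩
  have l1 : (1 / 40 : ℝ) * (x : ℝ) ^ lam ≤ ((NZ x 1 0 : ℤ) : ℝ) := by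
    rw [NZ_one_eq]
    exact FF_three_lower x hx10
  set Y := (x : ℝ) ^ lam with hY
  have hY0 : 0 < Y := Real.rpow_pos_of_pos hx0 _
  have g6 : Real.exp (-(Real.sqrt ℓ) / 2000) ≤ 1 / (200 * ℓ) := by
    have e1 : 1 / (200 * ℓ) = Real.exp (-(Real.log 200 + Real.log ℓ)) := by
      rw [Real.exp_neg, Real.exp_add, Real.exp_log (by norm_num), Real.exp_log hℓ0, one_div]
    rw [e1]
    apply Real.exp_le_exp.mpr
    linarith
  have g7 : Y * Real.exp (-(Real.sqrt ℓ) / 2000) ≤ Y * (1 / (200 * ℓ)) :=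
    mul_le_mul_of_nonneg_left g6 hY0.le
  have g8 : (1 / 40 * Y) * (1 / ℓ) ≤ ((NZ x 1 0 : ℤ) : ℝ) * Qw w R :=
    mul_le_mul l1 g5 (by positivity) (le_trans (by positivity) l1)
  have g9 := (abs_le.mp g3).1
  have e1 : Y / (50 * ℓ) = (1 / 40 * Y) * (1 / ℓ) - Y * (1 / (200 * ℓ)) := by
    field_simp
    norm_num
  rw [e1]
  linarith

end Pool.Agent.Odious24
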